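import Mathlib

/-!
# Growth of algebraic functions
-/

open Polynomial Filter Topology Asymptotics

namespace Pool.Agent.Helper43.Oval

/-- Polynomials grow polynomially. -/
theorem poly_upper (q : ℂ[X]) : ∃ C ≥ 0, ∀ z : ℂ, 1 ≤ ‖z‖ → ‖q.eval z‖ ≤ C * ‖z‖ ^ q.natDegree := by
  refine ⟨∑ i ∈ Finset.range (q.natDegree + 1), ‖q.coeff i‖,
    Finset.sum_nonneg fun _ _ => norm_nonneg _, fun z hz => ?_⟩
  rw [Polynomial.eval_eq_sum_range, Finset.sum_mul]
  refine (norm_sum_le _ _).trans (Finset.sum_le_sum fun i hi => ?_)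
  rw [norm_mul, norm_pow]
  refine mul_le_mul_of_nonneg_left ?_ (norm_nonneg _)
  exact pow_le_pow_right₀ hz (by simpa [Nat.lt_succ_iff] using Finset.mem_range.mp hi)

theorem poly_lower {q : ℂ[X]} (hq : q ≠ 0) :
    ∃ c > 0, ∀ᶠ z in Bornology.cobounded ℂ, c ≤ ‖q.eval z‖ := by
  by_cases hd : 0 < q.degree
  · have h := q.tendsto_norm_atTop hd (l := Bornology.cobounded ℂ) (z := fun z => z)
      tendsto_norm_cobounded_atTop
    exact ⟨1, one_pos, h.eventually_ge_atTop 1⟩
  · have h : q = C (q.coeff 0) := eq_C_of_degree_le_zero (not_lt.mp hd)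
    have h0 : q.coeff 0 ≠ 0 := by
      intro h0
      rw [h0, C_0] at h
      exact hq h
    refine ⟨‖q.coeff 0‖, norm_pos_iff.mpr h0, Eventually.of_forall fun z => ?_⟩
    conv_rhs => rw [h]
    rw [eval_C]

theorem evalEval_eq_sum' (p : Polynomial (Polynomial ℂ)) (z w : ℂ) :
    p.evalEval z w = ∑ i ∈ Finset.range (p.natDegree + 1), (p.coeff i).eval z * w ^ i := by
  unfold Polynomial.evalEval
  rw [Polynomial.eval_eq_sum_range (p := p), Polynomial.eval_finsetSum]
  refine Finset.sum_congr rfl fun i _ => ?_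
  simp

/-- Algebraic functions grow polynomially. -/
theorem alg_growth {f : ℂ → ℂ} {Q : Polynomial (Polynomial ℂ)} (hQ : Q ≠ 0)
    (hQf : ∀ᶠ z in Bornology.cobounded ℂ, Q.evalEval z (f z) = 0) :
    ∃ C ≥ 0, ∃ D : ℕ, ∀ᶠ z in Bornology.cobounded ℂ, ‖f z‖ ≤ C * ‖z‖ ^ D := by
  set n := Q.natDegree with hn
  obtain ⟨c, hc, hlow⟩ := poly_lower (leadingCoeff_ne_zero.mpr hQ)
  have hup := fun i => poly_upper (Q.coeff i)
  choose A hA0 hA using hup
  set D : ℕ := ∑ i ∈ Finset.range n, (Q.coeff i).natDegree with hD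
  set M : ℝ := ∑ i ∈ Finset.range n, A i with hM
  have hM0 : 0 ≤ M := Finset.sum_nonneg fun i _ => hA0 i
  refine ⟨1 + M / c, by positivity, D, ?_⟩
  have h1 : ∀ᶠ z : ℂ in Bornology.cobounded ℂ, 1 ≤ ‖z‖ :=
    tendsto_norm_cobounded_atTop.eventually_ge_atTop 1
  filter_upwards [hQf, hlow, h1] with z hz hlz hz1
  set w := f z with hw
  have hzD : 1 ≤ ‖z‖ ^ D := one_le_pow₀ hz1
  by_cases hw1 : ‖w‖ ≤ 1
  · calc ‖w‖ ≤ 1 * 1 := by linarith
      _ ≤ (1 + M / c) * ‖z‖ ^ D := by
        refine mul_le_mul ?_ hzD zero_le_one (by positivity)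
        have : 0 ≤ M / c := by positivity
        linarith
  · push Not at hw1
    rw [evalEval_eq_sum', Finset.sum_range_succ, ← hn] at hz
    have hlead : (Q.coeff n).eval z = Q.leadingCoeff.eval z := rfl
    have hn0 : n ≠ 0 := by
      intro h0
      rw [h0] at hz hlead
      simp only [Finset.range_zero, Finset.sum_empty, pow_zero, mul_one, zero_add] at hz
      rw [← hlead, hz, norm_zero] at hlz
      linarith
    obtain ⟨k, hk⟩ := Nat.exists_eq_succ_of_ne_zero hn0
    have hbound : ‖∑ i ∈ Finset.range n, (Q.coeff i).eval z * w ^ i‖ ≤ M * ‖z‖ ^ D * ‖w‖ ^ k := by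
      refine (norm_sum_le _ _).trans ?_
      rw [hM, Finset.sum_mul, Finset.sum_mul]
      refine Finset.sum_le_sum fun i hi => ?_
      rw [norm_mul, norm_pow]
      have hi' : i ≤ k := by
        have := Finset.mem_range.mp hi
        omega
      have hdi : (Q.coeff i).natDegree ≤ D := by
        rw [hD]
        exact Finset.single_le_sum (f := fun i => (Q.coeff i).natDegree)
          (fun _ _ => Nat.zero_le _) hi
      refine mul_le_mul ?_ (pow_le_pow_right₀ hw1.le hi') (by positivity)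
        (mul_nonneg (hA0 i) (by positivity))
      exact (hA i z hz1).trans
        (mul_le_mul_of_nonneg_left (pow_le_pow_right₀ hz1 hdi) (hA0 i))
    have h2 : (Q.coeff n).eval z * w ^ n = - ∑ i ∈ Finset.range n, (Q.coeff i).eval z * w ^ i := by
      linear_combination hz
    have h3 : ‖(Q.coeff n).eval z‖ * ‖w‖ ^ n ≤ M * ‖z‖ ^ D * ‖w‖ ^ k := by
      rw [← norm_pow, ← norm_mul, h2, norm_neg]
      exact hbound
    rw [hk, pow_succ, ← mul_assoc, mul_comm (‖(Q.coeff k.succ).eval z‖) (‖w‖ ^ k), mul_assoc,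
      mul_comm (M * ‖z‖ ^ D) (‖w‖ ^ k)] at h3
    have hwk : 0 < ‖w‖ ^ k := by positivity
    have h4 := le_of_mul_le_mul_left h3 hwk
    rw [← hk, hlead] at h4
    have h5 : c * ‖w‖ ≤ M * ‖z‖ ^ D :=
      (mul_le_mul_of_nonneg_right hlz (norm_nonneg _)).trans h4
    have h6 : ‖w‖ ≤ M / c * ‖z‖ ^ D := by
      rw [div_mul_eq_mul_div, le_div_iff₀ hc]
      linarith
    refine h6.trans (mul_le_mul_of_nonneg_right ?_ (by positivity))
    linarith

/-- An entire function with polynomial growth is a polynomial. -/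
theorem entire_of_growth {g : ℂ → ℂ} (hg : Differentiable ℂ g) {C : ℝ} (hC : 0 ≤ C) {D : ℕ}
    (hgr : ∀ᶠ z in Bornology.cobounded ℂ, ‖g z‖ ≤ C * ‖z‖ ^ D) :
    ∃ R : Polynomial ℂ, ∀ z, g z = R.eval z := by
  have hzero : ∀ n, D < n → iteratedDeriv n g 0 = 0 := by
    intro n hn
    rw [← norm_le_zero_iff]
    obtain ⟨R₀, -, hR₀⟩ := (Metric.hasBasis_cobounded_compl_closedBall (0 : ℂ)).eventually_iff.mp hgr
    have hb : ∀ᶠ R : ℝ in atTop, ‖iteratedDeriv n g 0‖ ≤ n.factorial * C * (1 / R) := by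
      filter_upwards [Ioi_mem_atTop R₀, Ici_mem_atTop (1 : ℝ)] with R hR hR1
      have hR1' : (1 : ℝ) ≤ R := hR1
      have hR0 : 0 < R := by linarith
      have h1 := Complex.norm_iteratedDeriv_le_of_forall_mem_sphere_norm_le (c := (0 : ℂ))
        (C := C * R ^ D) n hR0 hg.diffContOnCl (by
          intro z hz
          rw [mem_sphere_zero_iff_norm] at hz
          have h2 := hR₀ (show z ∈ (Metric.closedBall (0 : ℂ) R₀)ᶜ by
            rw [Set.mem_compl_iff, mem_closedBall_zero_iff, not_le, hz]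
            exact hR)
          rwa [hz] at h2)
      refine h1.trans ?_
      rw [div_le_iff₀ (by positivity), mul_assoc, mul_assoc]
      refine mul_le_mul_of_nonneg_left ?_ (by positivity)
      refine mul_le_mul_of_nonneg_left ?_ hC
      obtain ⟨m, rfl⟩ := Nat.exists_eq_add_of_lt hn
      have h3 : 1 / R * R ^ (D + m + 1) = R ^ (D + m) := by
        field_simp
        ring
      rw [h3]
      exact pow_le_pow_right₀ hR1' (by omega)
    have hlim : Tendsto (fun R : ℝ => n.factorial * C * (1 / R)) atTop (𝓝 0) := by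
      have := (tendsto_const_nhds (x := (n.factorial : ℝ) * C)).mul
        (tendsto_inv_atTop_zero (𝕜 := ℝ))
      rw [mul_zero] at this
      refine this.congr fun R => ?_
      rw [one_div]
    exact ge_of_tendsto hlim hb
  refine ⟨∑ n ∈ Finset.range (D + 1), Polynomial.C ((n.factorial : ℂ)⁻¹ * iteratedDeriv n g 0) *
    Polynomial.X ^ n, fun z => ?_⟩
  rw [← Complex.taylorSeries_eq_of_entire' 0 z hg, Polynomial.eval_finsetSum]
  rw [tsum_eq_sum (s := Finset.range (D + 1))]
  · refine Finset.sum_congr rfl fun n _ => ?_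
    simp
  · intro n hn
    rw [hzero n (by simpa using hn)]
    simp

/-- PIECE B2a. -/
theorem entire_algebraic (g : ℂ → ℂ) (hg : Differentiable ℂ g) (Q : Polynomial (Polynomial ℂ))
    (hQ : Q ≠ 0) (hQg : ∀ z, Q.evalEval z (g z) = 0) :
    ∃ R : Polynomial ℂ, ∀ z, g z = R.eval z := by
  obtain ⟨C, hC, D, h⟩ := alg_growth hQ (Eventually.of_forall hQg)
  exact entire_of_growth hg hC h

theorem dichotomy_mero {h : ℂ → ℂ} {b : ℂ} (hh : MeromorphicAt h b) :
    Tendsto h (𝓝[≠] b) (𝓝 0) ∨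
      ((∀ᶠ z in 𝓝[≠] b, h z ≠ 0) ∧ (fun z => (h z)⁻¹) =O[𝓝[≠] b] (fun _ => (1 : ℝ))) := by
  rcases lt_or_ge 0 (meromorphicOrderAt h b) with ho | ho
  · exact Or.inl (tendsto_zero_of_meromorphicOrderAt_pos ho)
  · right
    have hne : meromorphicOrderAt h b ≠ ⊤ := ne_top_of_le_ne_top (by simp) ho
    refine ⟨(meromorphicOrderAt_ne_top_iff_eventually_ne_zero hh).mp hne, ?_⟩
    have h1 : 0 ≤ meromorphicOrderAt h⁻¹ b := by
      rw [meromorphicOrderAt_inv]
      obtain ⟨m, hm⟩ := WithTop.ne_top_iff_exists.mp hne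
      rw [← hm] at ho ⊢
      have hm0 : m ≤ 0 := by exact_mod_cast ho
      have : (0 : ℤ) ≤ -m := by omega
      exact_mod_cast this
    obtain ⟨c, hc⟩ := tendsto_nhds_of_meromorphicOrderAt_nonneg hh.inv h1
    exact hc.isBigO_one ℝ

set_option linter.unusedVariables false in
/-- PIECE B2b. -/
theorem dichotomy_pt {f : ℂ → ℂ} {b : ℂ} (hf : AnalyticAt ℂ f b) {q : ℂ[X]} (hq : q ≠ 0) :
    Tendsto (fun z => f z / q.eval z) (𝓝[≠] b) (𝓝 0) ∨
      ((∀ᶠ z in 𝓝[≠] b, f z ≠ 0) ∧
        (fun z => q.eval z / f z) =O[𝓝[≠] b] (fun _ => (1 : ℝ))) := by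
  have hqa : AnalyticAt ℂ (fun z => q.eval z) b := by
    have := q.differentiable.analyticAt b
    exact this
  have hm : MeromorphicAt (fun z => f z / q.eval z) b := hf.meromorphicAt.div hqa.meromorphicAt
  rcases dichotomy_mero hm with h | ⟨h1, h2⟩
  · exact Or.inl h
  · right
    refine ⟨?_, ?_⟩
    · filter_upwards [h1] with z hz h0
      rw [h0, zero_div] at hz
      exact hz rfl
    · simpa only [inv_div] using h2

set_option linter.unusedVariables false in
/-- PIECE B2c. -/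
theorem dichotomy_infty {f : ℂ → ℂ} (hf : ∀ᶠ z in Bornology.cobounded ℂ, AnalyticAt ℂ f z)
    {Q : Polynomial (Polynomial ℂ)} (hQ : Q ≠ 0)
    (hQf : ∀ᶠ z in Bornology.cobounded ℂ, Q.evalEval z (f z) = 0) {q : ℂ[X]} (hq : q ≠ 0) :
    Tendsto (fun z => f z / q.eval z) (Bornology.cobounded ℂ) (𝓝 0) ∨
      ((∀ᶠ z in Bornology.cobounded ℂ, f z ≠ 0) ∧
        (fun z => q.eval z / f z) =O[Bornology.cobounded ℂ] (fun _ => (1 : ℝ))) := by
  -- the general statement about functions of polynomial growth near infinity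
  have hmero : ∀ (k : ℂ → ℂ), (∀ᶠ z in Bornology.cobounded ℂ, DifferentiableAt ℂ k z) →
      (∃ C ≥ 0, ∃ D : ℕ, ∀ᶠ z in Bornology.cobounded ℂ, ‖k z‖ ≤ C * ‖z‖ ^ D) →
      MeromorphicAt (fun u => k u⁻¹) 0 := by
    rintro k hk ⟨C, hC, D, hD⟩
    set m : ℂ → ℂ := fun u => u ^ (D + 1) * k u⁻¹ with hm
    have hd : ∀ᶠ u in 𝓝[≠] (0 : ℂ), DifferentiableAt ℂ m u := by
      filter_upwards [tendsto_inv₀_nhdsNE_zero.eventually hk, self_mem_nhdsWithin] with u hu hu0
      have hu0' : u ≠ 0 := hu0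
      have h1 : DifferentiableAt ℂ (fun u => k u⁻¹) u := hu.comp u (differentiableAt_inv hu0')
      exact (differentiableAt_id.pow (D + 1)).mul h1
    have hc : ContinuousAt m 0 := by
      have hm0 : m 0 = 0 := by simp [hm]
      rw [← continuousWithinAt_compl_self, ContinuousWithinAt, hm0]
      have h1 : Tendsto (fun u : ℂ => C * ‖u‖) (𝓝[≠] 0) (𝓝 0) := by
        have : Tendsto (fun u : ℂ => C * ‖u‖) (𝓝 0) (𝓝 (C * ‖(0 : ℂ)‖)) :=
          Continuous.tendsto (by fun_prop) 0
        rw [norm_zero, mul_zero] at this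
        exact this.mono_left nhdsWithin_le_nhds
      refine squeeze_zero_norm' ?_ h1
      filter_upwards [tendsto_inv₀_nhdsNE_zero.eventually hD, self_mem_nhdsWithin] with u hu hu0
      have hu0' : u ≠ 0 := hu0
      have hun : 0 < ‖u‖ := norm_pos_iff.mpr hu0'
      rw [hm]
      simp only
      rw [norm_mul, norm_pow]
      calc ‖u‖ ^ (D + 1) * ‖k u⁻¹‖ ≤ ‖u‖ ^ (D + 1) * (C * ‖u⁻¹‖ ^ D) :=
            mul_le_mul_of_nonneg_left hu (by positivity)
        _ = C * ‖u‖ := by
            rw [norm_inv, inv_pow, pow_succ]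
            field_simp
    have ha : AnalyticAt ℂ m 0 :=
      Complex.analyticAt_of_differentiable_on_punctured_nhds_of_continuousAt hd hc
    have h2 : MeromorphicAt (fun u => m u / u ^ (D + 1)) 0 :=
      ha.meromorphicAt.div ((analyticAt_id.pow (D + 1)).meromorphicAt)
    refine h2.congr ?_
    filter_upwards [self_mem_nhdsWithin] with u hu0
    have hu0' : u ≠ 0 := hu0
    rw [hm]
    simp only
    field_simp
  have hfm : MeromorphicAt (fun u => f u⁻¹) 0 :=
    hmero f (hf.mono fun z hz => hz.differentiableAt) (alg_growth hQ hQf)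
  have hqm : MeromorphicAt (fun u => q.eval u⁻¹) 0 := by
    refine hmero (fun z => q.eval z) (Eventually.of_forall fun z => q.differentiable z) ?_
    obtain ⟨C, hC, h⟩ := poly_upper q
    exact ⟨C, hC, q.natDegree, (tendsto_norm_cobounded_atTop.eventually_ge_atTop 1).mono h⟩
  have hm : MeromorphicAt (fun u => f u⁻¹ / q.eval u⁻¹) 0 := hfm.div hqm
  rcases dichotomy_mero hm with h | ⟨h1, h2⟩
  · left
    have := h.comp tendsto_inv₀_cobounded'
    refine this.congr fun z => ?_
    simp [Function.comp]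
  · right
    refine ⟨?_, ?_⟩
    · have := tendsto_inv₀_cobounded'.eventually h1
      filter_upwards [this] with z hz h0
      rw [inv_inv, h0, zero_div] at hz
      exact hz rfl
    · have := h2.comp_tendsto tendsto_inv₀_cobounded'
      simpa [Function.comp_def, inv_div] using this

end Pool.Agent.Helper43.Oval
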