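import Pool.Agent.Helper43.Oval.Pompeiu

/-!
# Cauchy transforms of compactly supported functions
-/

open Filter Topology Set MeasureTheory

namespace Pool.Agent.Helper43.Oval

/-- The Cauchy transform of a function. -/
noncomputable def cauchy (v : ℂ → ℂ) (z : ℂ) : ℂ := (1 / Real.pi : ℂ) * ∫ ζ, v ζ / (z - ζ)

variable {v : ℂ → ℂ} {K : Set ℂ}

theorem integrableOn_kernel (hK : IsCompact K) (hv : ContinuousOn v K) {z : ℂ} (hz : z ∉ K) :
    IntegrableOn (fun ζ => v ζ / (z - ζ)) K := by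
  refine ContinuousOn.integrableOn_compact hK ?_
  refine hv.div (by fun_prop) ?_
  intro ζ hζ h0
  rw [sub_eq_zero] at h0
  exact hz (h0 ▸ hζ)

theorem integrable_kernel (hK : IsCompact K) (hv : ContinuousOn v K) (hvK : ∀ ζ ∉ K, v ζ = 0)
    {z : ℂ} (hz : z ∉ K) : Integrable (fun ζ => v ζ / (z - ζ)) := by
  rw [← integrableOn_iff_integrable_of_support_subset (s := K)]
  · exact integrableOn_kernel hK hv hz
  · intro ζ hζ
    by_contra h
    apply hζ
    show v ζ / (z - ζ) = 0
    rw [hvK ζ h, zero_div]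

theorem cauchy_eq_setIntegral (hvK : ∀ ζ ∉ K, v ζ = 0) (z : ℂ) :
    cauchy v z = (1 / Real.pi : ℂ) * ∫ ζ in K, v ζ / (z - ζ) := by
  unfold cauchy
  congr 1
  refine (setIntegral_eq_integral_of_forall_compl_eq_zero fun ζ hζ => ?_).symm
  rw [hvK ζ hζ, zero_div]

theorem differentiableAt_cauchy (hK : IsCompact K) (hv : ContinuousOn v K)
    (hvK : ∀ ζ ∉ K, v ζ = 0) {z : ℂ} (hz : z ∉ K) : DifferentiableAt ℂ (cauchy v) z := by
  have h1 : cauchy v = fun z => (1 / Real.pi : ℂ) * ∫ ζ in K, v ζ / (z - ζ) :=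
    funext fun z => cauchy_eq_setIntegral hvK z
  rw [h1]
  refine DifferentiableAt.const_mul ?_ _
  obtain ⟨d, hd, hball⟩ := Metric.isOpen_iff.mp hK.isClosed.isOpen_compl z hz
  have hdist : ∀ y ∈ Metric.ball z (d / 2), ∀ ζ ∈ K, d / 2 ≤ ‖y - ζ‖ := by
    intro y hy ζ hζ
    by_contra h
    push Not at h
    have h2 : dist ζ z < d := by
      have h3 := dist_triangle ζ y z
      rw [Metric.mem_ball] at hy
      rw [← dist_eq_norm, dist_comm] at h
      linarith
    exact hball h2 hζ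
  have hmeas : ∀ y ∉ K, AEStronglyMeasurable (fun ζ => v ζ / (y - ζ)) (volume.restrict K) :=
    fun y hy => (integrableOn_kernel hK hv hy).aestronglyMeasurable
  have key := hasDerivAt_integral_of_dominated_loc_of_deriv_le (μ := volume.restrict K)
    (F := fun y ζ => v ζ / (y - ζ)) (F' := fun y ζ => - v ζ / (y - ζ) ^ 2) (x₀ := z)
    (s := Metric.ball z (d / 2)) (bound := fun ζ => ‖v ζ‖ * (4 / d ^ 2))
    (Metric.ball_mem_nhds z (by positivity)) ?_ (integrableOn_kernel hK hv hz) ?_ ?_ ?_ ?_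
  · exact key.2.differentiableAt
  · filter_upwards [hK.isClosed.isOpen_compl.mem_nhds hz] with y hy using hmeas y hy
  · have : ContinuousOn (fun ζ => - v ζ / (z - ζ) ^ 2) K := by
      refine hv.neg.div (by fun_prop) ?_
      intro ζ hζ h0
      rw [sq_eq_zero_iff, sub_eq_zero] at h0
      exact hz (h0 ▸ hζ)
    exact (this.integrableOn_compact hK).aestronglyMeasurable
  · filter_upwards [ae_restrict_mem hK.measurableSet] with ζ hζ y hy
    have h2 := hdist y hy ζ hζ
    rw [norm_div, norm_neg, norm_pow, div_eq_mul_inv]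
    refine mul_le_mul_of_nonneg_left ?_ (norm_nonneg _)
    have h4 : 0 < ‖y - ζ‖ := by linarith
    rw [inv_le_comm₀ (by positivity) (by positivity), inv_div]
    have h3 : d ^ 2 / 4 = (d / 2) ^ 2 := by ring
    rw [h3]
    exact pow_le_pow_left₀ (by positivity) h2 2
  · exact ((hv.norm.integrableOn_compact hK)).mul_const _
  · filter_upwards [ae_restrict_mem hK.measurableSet] with ζ hζ y hy
    have h2 := hdist y hy ζ hζ
    have h3 : y - ζ ≠ 0 := by
      intro h0
      rw [h0, norm_zero] at h2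
      linarith
    have h4 : HasDerivAt (fun y : ℂ => y - ζ) 1 y := (hasDerivAt_id y).sub_const ζ
    have h5 := (hasDerivAt_const y (v ζ)).div h4 h3
    have h6 : (0 * (y - ζ) - v ζ * 1) / (y - ζ) ^ 2 = -v ζ / (y - ζ) ^ 2 := by
      rw [zero_mul, mul_one, zero_sub]
    rw [h6] at h5
    exact h5

theorem analyticOnNhd_cauchy (hK : IsCompact K) (hv : ContinuousOn v K)
    (hvK : ∀ ζ ∉ K, v ζ = 0) : AnalyticOnNhd ℂ (cauchy v) Kᶜ :=
  DifferentiableOn.analyticOnNhd
    (fun _ hz => (differentiableAt_cauchy hK hv hvK hz).differentiableWithinAt)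
    hK.isClosed.isOpen_compl

theorem cauchy_dbar {f : ℂ → ℂ} (hf : ContDiff ℝ 1 f) (hc : HasCompactSupport f) (z : ℂ) :
    cauchy (dbar f) z = f z := (pompeiu hf hc z).symm

end Pool.Agent.Helper43.Oval
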