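import Pool.Agent.Helper43.Oval.Cauchy

/-!
# Cut-off functions adapted to an oval
-/

open Filter Topology Set MeasureTheory

namespace Pool.Agent.Helper43.Oval

/-- The tent function. -/
noncomputable def tent (s : ℝ) : ℝ := max 0 (1 - |s|)

theorem continuous_tent : Continuous tent := by
  unfold tent
  fun_prop

theorem tent_nonneg (s : ℝ) : 0 ≤ tent s := le_max_left _ _

theorem tent_le_one (s : ℝ) : tent s ≤ 1 := by
  unfold tent
  have := abs_nonneg s
  simp only [max_le_iff]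
  constructor <;> linarith

theorem tent_zero : tent 0 = 1 := by
  unfold tent
  simp

theorem tent_of_abs_ge {s : ℝ} (hs : 1 ≤ |s|) : tent s = 0 := by
  unfold tent
  exact max_eq_left (by linarith)

/-- A continuously differentiable step function. -/
noncomputable def step (t : ℝ) : ℝ := ∫ s in (-1 : ℝ)..t, tent s

theorem hasDerivAt_step (t : ℝ) : HasDerivAt step (tent t) t :=
  intervalIntegral.integral_hasDerivAt_right (continuous_tent.intervalIntegrable _ _)
    continuous_tent.aestronglyMeasurable.stronglyMeasurableAtFilter continuous_tent.continuousAt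

theorem contDiff_step : ContDiff ℝ 1 step := by
  rw [contDiff_one_iff_deriv]
  refine ⟨fun t => (hasDerivAt_step t).differentiableAt, ?_⟩
  have : deriv step = tent := funext fun t => (hasDerivAt_step t).deriv
  rw [this]
  exact continuous_tent

theorem step_of_le {t : ℝ} (ht : t ≤ -1) : step t = 0 := by
  unfold step
  rw [intervalIntegral.integral_congr (g := fun _ => (0 : ℝ))]
  · simp
  · intro s hs
    rw [uIcc_of_ge ht] at hs
    refine tent_of_abs_ge ?_
    rw [abs_of_nonpos (by linarith [hs.2])]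
    linarith [hs.2]

theorem step_of_ge {t : ℝ} (ht : 1 ≤ t) : step t = 1 := by
  unfold step
  have hi : ∀ a b : ℝ, IntervalIntegrable tent volume a b := fun a b =>
    continuous_tent.intervalIntegrable _ _
  rw [← intervalIntegral.integral_add_adjacent_intervals (hi (-1) 0) (hi 0 t),
    ← intervalIntegral.integral_add_adjacent_intervals (hi 0 1) (hi 1 t)]
  have h1 : ∫ s in (-1 : ℝ)..0, tent s = ∫ s in (-1 : ℝ)..0, (1 + s) := by
    refine intervalIntegral.integral_congr ?_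
    intro s hs
    rw [uIcc_of_le (by norm_num)] at hs
    simp only [tent]
    rw [abs_of_nonpos hs.2, max_eq_right (by linarith [hs.1])]
    ring
  have h2 : ∫ s in (0 : ℝ)..1, tent s = ∫ s in (0 : ℝ)..1, (1 - s) := by
    refine intervalIntegral.integral_congr ?_
    intro s hs
    rw [uIcc_of_le (by norm_num)] at hs
    simp only [tent]
    rw [abs_of_nonneg hs.1, max_eq_right (by linarith [hs.2])]
  have h3 : ∫ s in (1 : ℝ)..t, tent s = 0 := by
    rw [intervalIntegral.integral_congr (g := fun _ => (0 : ℝ))]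
    · simp
    · intro s hs
      rw [uIcc_of_le ht] at hs
      refine tent_of_abs_ge ?_
      rw [abs_of_nonneg (by linarith [hs.1])]
      exact hs.1
  have e1 : ∫ s in (-1 : ℝ)..0, (1 + s) = 1 / 2 := by
    rw [intervalIntegral.integral_add (by simp) (by simp), intervalIntegral.integral_const,
      integral_id]
    norm_num
  have e2 : ∫ s in (0 : ℝ)..1, (1 - s) = 1 / 2 := by
    rw [intervalIntegral.integral_sub (by simp) (by simp), intervalIntegral.integral_const,
      integral_id]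
    norm_num
  rw [h1, h2, h3, e1, e2]
  norm_num

theorem step_nonneg_le (t : ℝ) : 0 ≤ step t ∧ step t ≤ 1 := by
  have hmono : Monotone step := by
    refine monotone_of_deriv_nonneg (fun t => (hasDerivAt_step t).differentiableAt) ?_
    intro t
    rw [(hasDerivAt_step t).deriv]
    exact tent_nonneg t
  constructor
  · rw [← step_of_le (t := min t (-1)) (min_le_right _ _)]
    exact hmono (min_le_left _ _)
  · rw [← step_of_ge (t := max t 1) (le_max_right _ _)]
    exact hmono (le_max_left _ _)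

/-- A compact neighbourhood `N` of `Γ` on which the sign of `Q` tells the sides of `Γ`. -/
structure Collar (Γ Ω N : Set ℂ) (Q : ℂ → ℝ) (ε : ℝ) : Prop where
  cpt : IsCompact N
  openΩ : IsOpen Ω
  cptΩ : IsCompact (closure Ω)
  cl : closure Ω = Ω ∪ Γ
  disj : ∀ z ∈ Ω, z ∉ Γ
  neg : ∀ z ∈ N, Q z < 0 → z ∈ Ω
  pos : ∀ z ∈ N, 0 < Q z → z ∉ Ω
  zero : ∀ z ∈ N, Q z = 0 → z ∈ Γ
  sub : Γ ⊆ N
  zeroΓ : ∀ z ∈ Γ, Q z = 0
  eps : 0 < ε
  inner : ∀ z ∈ N, |Q z| ≤ ε → z ∈ interior N
  smooth : ContDiff ℝ 1 Q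

open Classical in
/-- The cut-off function: `0` inside `Ω`, `1` outside, the transition taking place where
`|Q - c| < δ`. -/
noncomputable def chi (Ω N : Set ℂ) (Q : ℂ → ℝ) (c δ : ℝ) (z : ℂ) : ℝ :=
  if z ∈ N then step ((Q z - c) / δ) else if z ∈ Ω then 0 else 1

/-- the derivative of `Q` with respect to `conj z` -/
noncomputable def dq (Q : ℂ → ℝ) (z : ℂ) : ℂ := dbarL (Complex.ofRealCLM ∘L fderiv ℝ Q z)

theorem continuous_dq {Q : ℂ → ℝ} (hQ : ContDiff ℝ 1 Q) : Continuous (dq Q) := by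
  refine continuous_dbarL.comp ?_
  exact continuous_const.clm_comp (hQ.continuous_fderiv one_ne_zero)

namespace Collar

variable {Γ Ω N : Set ℂ} {Q : ℂ → ℝ} {ε : ℝ}

theorem mono (h : Collar Γ Ω N Q ε) {ε' : ℝ} (h0 : 0 < ε') (hle : ε' ≤ ε) :
    Collar Γ Ω N Q ε' :=
  { h with eps := h0, inner := fun z hz hQ => h.inner z hz (hQ.trans hle) }

theorem lt_of_mem (h : Collar Γ Ω N Q ε) {z : ℂ} (hz : z ∈ N) (hΩ : z ∈ Ω) : Q z < 0 := by
  rcases lt_trichotomy (Q z) 0 with h1 | h1 | h1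
  · exact h1
  · exact absurd (h.zero z hz h1) (h.disj z hΩ)
  · exact absurd hΩ (h.pos z hz h1)

theorem nonneg_of_notMem (h : Collar Γ Ω N Q ε) {z : ℂ} (hz : z ∈ N) (hΩ : z ∉ Ω) : 0 ≤ Q z := by
  by_contra h1
  exact hΩ (h.neg z hz (not_le.mp h1))

theorem mem_exterior (h : Collar Γ Ω N Q ε) {z : ℂ} (hΓ : z ∉ Γ) (hΩ : z ∉ Ω) :
    z ∉ closure Ω := by
  rw [h.cl]
  rintro (h1 | h1)
  · exact hΩ h1
  · exact hΓ h1

theorem isClosed_zone (h : Collar Γ Ω N Q ε) : IsCompact {z | z ∈ N ∧ |Q z| ≤ ε} := by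
  have h1 : IsClosed {z | |Q z| ≤ ε} :=
    isClosed_le (continuous_abs.comp h.smooth.continuous) continuous_const
  exact h.cpt.inter_right h1

theorem chi_near (_h : Collar Γ Ω N Q ε) (c δ : ℝ) {z : ℂ} (hz : z ∈ interior N) :
    chi Ω N Q c δ =ᶠ[𝓝 z] fun z => step ((Q z - c) / δ) := by
  filter_upwards [isOpen_interior.mem_nhds hz] with y hy
  simp only [chi, if_pos (interior_subset hy)]

theorem chi_far (h : Collar Γ Ω N Q ε) {c δ : ℝ} (hδ : 0 < δ) (hc : |c| + δ ≤ ε) {z : ℂ}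
    (hz : ¬ (z ∈ N ∧ |Q z| ≤ ε)) :
    (z ∈ Ω ∧ chi Ω N Q c δ =ᶠ[𝓝 z] fun _ => 0) ∨
      (z ∉ closure Ω ∧ chi Ω N Q c δ =ᶠ[𝓝 z] fun _ => 1) := by
  have hopen : IsOpen {z | z ∈ N ∧ |Q z| ≤ ε}ᶜ := h.isClosed_zone.isClosed.isOpen_compl
  have hzΓ : z ∉ Γ := by
    intro hzΓ
    exact hz ⟨h.sub hzΓ, by rw [h.zeroΓ z hzΓ, abs_zero]; exact h.eps.le⟩
  have hc1 := neg_abs_le c
  have hc2 := le_abs_self c
  by_cases hΩ : z ∈ Ω
  · left
    refine ⟨hΩ, ?_⟩
    filter_upwards [hopen.mem_nhds hz, h.openΩ.mem_nhds hΩ] with y hy hyΩ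
    unfold chi
    by_cases hyN : y ∈ N
    · rw [if_pos hyN]
      have h1 := h.lt_of_mem hyN hyΩ
      have h2 : ε < |Q y| := by
        by_contra h3
        exact hy ⟨hyN, not_lt.mp h3⟩
      rw [abs_of_neg h1] at h2
      refine step_of_le ?_
      rw [div_le_iff₀ hδ]
      linarith
    · rw [if_neg hyN, if_pos hyΩ]
  · right
    have hE : z ∉ closure Ω := h.mem_exterior hzΓ hΩ
    refine ⟨hE, ?_⟩
    filter_upwards [hopen.mem_nhds hz, isClosed_closure.isOpen_compl.mem_nhds hE] with y hy hyE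
    have hyΩ : y ∉ Ω := fun h1 => hyE (subset_closure h1)
    unfold chi
    by_cases hyN : y ∈ N
    · rw [if_pos hyN]
      have h1 := h.nonneg_of_notMem hyN hyΩ
      have h2 : ε < |Q y| := by
        by_contra h3
        exact hy ⟨hyN, not_lt.mp h3⟩
      rw [abs_of_nonneg h1] at h2
      refine step_of_ge ?_
      rw [le_div_iff₀ hδ]
      linarith
    · rw [if_neg hyN, if_neg hyΩ]

theorem contDiff_chi (h : Collar Γ Ω N Q ε) {c δ : ℝ} (hδ : 0 < δ) (hc : |c| + δ ≤ ε) :
    ContDiff ℝ 1 (chi Ω N Q c δ) := by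
  rw [contDiff_iff_contDiffAt]
  intro z
  by_cases hz : z ∈ N ∧ |Q z| ≤ ε
  · have h1 := h.chi_near c δ (h.inner z hz.1 hz.2)
    refine ContDiffAt.congr_of_eventuallyEq ?_ h1
    refine ContDiff.contDiffAt ?_
    exact contDiff_step.comp ((h.smooth.sub contDiff_const).div_const δ)
  · rcases h.chi_far hδ hc hz with ⟨-, h1⟩ | ⟨-, h1⟩
    · exact contDiffAt_const.congr_of_eventuallyEq h1
    · exact contDiffAt_const.congr_of_eventuallyEq h1

theorem chi_bound (_h : Collar Γ Ω N Q ε) (c δ : ℝ) (z : ℂ) :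
    0 ≤ chi Ω N Q c δ z ∧ chi Ω N Q c δ z ≤ 1 := by
  unfold chi
  split_ifs
  · exact step_nonneg_le _
  · norm_num
  · norm_num

open Classical in
theorem dbar_chi (h : Collar Γ Ω N Q ε) {c δ : ℝ} (hδ : 0 < δ) (hc : |c| + δ ≤ ε) (z : ℂ) :
    dbar (fun z => ((chi Ω N Q c δ z : ℝ) : ℂ)) z =
      if z ∈ N then ((tent ((Q z - c) / δ) / δ : ℝ) : ℂ) * dq Q z else 0 := by
  have hfar : ¬ (z ∈ N ∧ |Q z| ≤ ε) → dbar (fun z => ((chi Ω N Q c δ z : ℝ) : ℂ)) z = 0 := by
    intro hz
    rcases h.chi_far hδ hc hz with ⟨-, h1⟩ | ⟨-, h1⟩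
    · have h2 : (fun z => ((chi Ω N Q c δ z : ℝ) : ℂ)) =ᶠ[𝓝 z] fun _ => ((0 : ℝ) : ℂ) := by
        filter_upwards [h1] with y hy
        rw [hy]
      rw [dbar_congr h2, dbar_const]
    · have h2 : (fun z => ((chi Ω N Q c δ z : ℝ) : ℂ)) =ᶠ[𝓝 z] fun _ => ((1 : ℝ) : ℂ) := by
        filter_upwards [h1] with y hy
        rw [hy]
      rw [dbar_congr h2, dbar_const]
  by_cases hzN : z ∈ N
  · rw [if_pos hzN]
    by_cases hz : |Q z| ≤ ε
    · have h1 := h.chi_near c δ (h.inner z hzN hz)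
      have h2 : (fun z => ((chi Ω N Q c δ z : ℝ) : ℂ)) =ᶠ[𝓝 z]
          fun z => ((step ((Q z - c) / δ) : ℝ) : ℂ) := by
        filter_upwards [h1] with y hy
        rw [hy]
      rw [dbar_congr h2]
      have hQd : DifferentiableAt ℝ Q z := h.smooth.differentiable one_ne_zero z
      have hu : HasFDerivAt (fun z => (Q z - c) / δ) (δ⁻¹ • fderiv ℝ Q z) z := by
        have := (hQd.hasFDerivAt.sub_const c).const_smul (δ⁻¹)
        refine this.congr_of_eventuallyEq (Eventually.of_forall fun y => ?_)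
        show (Q y - c) / δ = δ⁻¹ * (Q y - c)
        ring
      rw [dbar_ofReal_comp (hasDerivAt_step _) hu.differentiableAt, hu.fderiv,
        ContinuousLinearMap.comp_smul, dbarL_real_smul]
      unfold dq
      push_cast
      ring
    · rw [hfar (fun h1 => hz h1.2)]
      have : tent ((Q z - c) / δ) = 0 := by
        refine tent_of_abs_ge ?_
        rw [abs_div, abs_of_pos hδ, le_div_iff₀ hδ]
        have h1 := abs_sub_abs_le_abs_sub (Q z) c
        push Not at hz
        linarith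
      rw [this]
      simp
  · rw [if_neg hzN]
    exact hfar fun h1 => hzN h1.1

end Collar

end Pool.Agent.Helper43.Oval
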