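import Pool.Agent.Helper43.Oval.Poly

/-!
# The operator `∂/∂(conj z)` and the Cauchy–Pompeiu formula
-/

open Filter Topology Set MeasureTheory ComplexConjugate

namespace Pool.Agent.Helper43.Oval

/-- `∂f/∂(conj z)` of a real differentiable function. -/
noncomputable def dbar (f : ℂ → ℂ) (z : ℂ) : ℂ := dbarL (fderiv ℝ f z)

theorem dbarL_add (L M : ℂ →L[ℝ] ℂ) : dbarL (L + M) = dbarL L + dbarL M := by
  unfold dbarL
  simp only [_root_.add_apply]
  ring

theorem dbarL_smul (c : ℂ) (L : ℂ →L[ℝ] ℂ) : dbarL (c • L) = c * dbarL L := by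
  unfold dbarL
  simp only [_root_.smul_apply, smul_eq_mul]
  ring

theorem dbarL_real_smul (c : ℝ) (L : ℂ →L[ℝ] ℂ) : dbarL (c • L) = c * dbarL L := by
  unfold dbarL
  simp only [_root_.smul_apply, Complex.real_smul]
  ring

@[simp] theorem dbarL_zero : dbarL 0 = 0 := by
  unfold dbarL
  simp

theorem continuous_dbarL : Continuous dbarL := by
  unfold dbarL
  fun_prop

theorem norm_dbarL_le (L : ℂ →L[ℝ] ℂ) : ‖dbarL L‖ ≤ ‖L‖ := by
  unfold dbarL
  rw [norm_div]
  have h1 : ‖L 1‖ ≤ ‖L‖ := by simpa using L.le_opNorm 1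
  have h2 : ‖Complex.I * L Complex.I‖ ≤ ‖L‖ := by
    rw [norm_mul, Complex.norm_I, one_mul]
    simpa using L.le_opNorm Complex.I
  have h3 : ‖(2 : ℂ)‖ = 2 := by simp
  rw [h3, div_le_iff₀ (by norm_num)]
  calc ‖L 1 + Complex.I * L Complex.I‖ ≤ ‖L 1‖ + ‖Complex.I * L Complex.I‖ := norm_add_le _ _
    _ ≤ ‖L‖ * 2 := by linarith

theorem dbar_congr {f g : ℂ → ℂ} {z : ℂ} (h : f =ᶠ[𝓝 z] g) : dbar f z = dbar g z := by
  unfold dbar
  rw [h.fderiv_eq]

theorem dbar_add {f g : ℂ → ℂ} {z : ℂ} (hf : DifferentiableAt ℝ f z)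
    (hg : DifferentiableAt ℝ g z) : dbar (fun z => f z + g z) z = dbar f z + dbar g z := by
  unfold dbar
  rw [fderiv_fun_add hf hg, dbarL_add]

theorem dbar_sub {f g : ℂ → ℂ} {z : ℂ} (hf : DifferentiableAt ℝ f z)
    (hg : DifferentiableAt ℝ g z) : dbar (fun z => f z - g z) z = dbar f z - dbar g z := by
  unfold dbar
  rw [fderiv_fun_sub hf hg, sub_eq_add_neg, dbarL_add, ← neg_one_smul ℝ (fderiv ℝ g z),
    dbarL_real_smul]
  push_cast
  ring

theorem dbar_mul {f g : ℂ → ℂ} {z : ℂ} (hf : DifferentiableAt ℝ f z)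
    (hg : DifferentiableAt ℝ g z) :
    dbar (fun z => f z * g z) z = f z * dbar g z + g z * dbar f z := by
  unfold dbar
  rw [fderiv_fun_mul hf hg, dbarL_add, dbarL_smul, dbarL_smul]

theorem dbar_const (c : ℂ) (z : ℂ) : dbar (fun _ => c) z = 0 := by
  unfold dbar
  simp

theorem dbar_of_differentiableAt {f : ℂ → ℂ} {z : ℂ} (hf : DifferentiableAt ℂ f z) :
    dbar f z = 0 := by
  unfold dbar
  rw [(hf.hasFDerivAt.restrictScalars ℝ).fderiv]
  unfold dbarL
  simp only [ContinuousLinearMap.coe_restrictScalars']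
  have h : fderiv ℂ f z Complex.I = Complex.I * fderiv ℂ f z 1 := by
    have : fderiv ℂ f z (Complex.I • (1 : ℂ)) = Complex.I • fderiv ℂ f z 1 := map_smul _ _ _
    rwa [smul_eq_mul, smul_eq_mul, mul_one] at this
  rw [h, ← mul_assoc, Complex.I_mul_I]
  ring

theorem dbar_conj (z : ℂ) : dbar (fun z => conj z) z = 1 := by
  unfold dbar
  have h : HasFDerivAt (fun z : ℂ => conj z) (Complex.conjCLE : ℂ →L[ℝ] ℂ) z :=
    (Complex.conjCLE : ℂ →L[ℝ] ℂ).hasFDerivAt
  rw [h.fderiv]
  unfold dbarL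
  have h8 : ∀ h : ℂ, (Complex.conjCLE : ℂ →L[ℝ] ℂ) h = conj h := fun h => rfl
  rw [h8, h8, map_one, Complex.conj_I]
  rw [mul_neg, Complex.I_mul_I]
  norm_num

theorem dbar_ofReal_comp {η : ℝ → ℝ} {u : ℂ → ℝ} {η' : ℝ} {z : ℂ} (hη : HasDerivAt η η' (u z))
    (hu : DifferentiableAt ℝ u z) :
    dbar (fun z => ((η (u z) : ℝ) : ℂ)) z =
      η' * dbarL (Complex.ofRealCLM ∘L fderiv ℝ u z) := by
  unfold dbar
  have h1 : HasFDerivAt (fun z => η (u z)) (η' • fderiv ℝ u z) z :=
    hη.comp_hasFDerivAt z hu.hasFDerivAt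
  have h2 : HasFDerivAt (fun z => ((η (u z) : ℝ) : ℂ)) (Complex.ofRealCLM ∘L (η' • fderiv ℝ u z)) z :=
    Complex.ofRealCLM.hasFDerivAt.comp z h1
  rw [h2.fderiv, ContinuousLinearMap.comp_smul, dbarL_real_smul]

theorem continuous_dbar {f : ℂ → ℂ} (hf : ContDiff ℝ 1 f) : Continuous (dbar f) :=
  continuous_dbarL.comp (hf.continuous_fderiv one_ne_zero)

theorem tsupport_dbar_subset (f : ℂ → ℂ) : tsupport (dbar f) ⊆ tsupport f := by
  refine closure_minimal ?_ (isClosed_tsupport f)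
  intro z hz
  by_contra h
  apply hz
  have h1 : f =ᶠ[𝓝 z] fun _ => 0 := by
    have := notMem_tsupport_iff_eventuallyEq.mp h
    exact this
  rw [dbar_congr h1, dbar_const]

theorem hasCompactSupport_dbar {f : ℂ → ℂ} (hf : HasCompactSupport f) :
    HasCompactSupport (dbar f) :=
  HasCompactSupport.of_support_subset_isCompact hf
    ((subset_tsupport _).trans (tsupport_dbar_subset f))

/-- The integral of a derivative of a compactly supported function vanishes. -/
theorem integral_fderiv_eq_zero {f : ℂ → ℂ} (hf : ContDiff ℝ 1 f) (hc : HasCompactSupport f)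
    (v : ℂ) : ∫ z, fderiv ℝ f z v = 0 := by
  have hcont : Continuous (fun z => fderiv ℝ f z v) :=
    (hf.continuous_fderiv one_ne_zero).clm_apply continuous_const
  have hcs : HasCompactSupport (fun z => fderiv ℝ f z v) := hc.fderiv_apply ℝ v
  have h := integral_smul_fderiv_eq_neg_fderiv_smul_of_integrable (μ := (volume : Measure ℂ))
    (f := fun _ : ℂ => (1 : ℝ)) (g := f) (v := v) (by simp)
    (by simpa using hcont.integrable_of_hasCompactSupport hcs)
    (by simpa using hf.continuous.integrable_of_hasCompactSupport hc)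
    (fun x _ => differentiableAt_const _) (fun x _ => (hf.differentiable one_ne_zero) x)
  simpa using h

theorem integral_dbar_eq_zero {f : ℂ → ℂ} (hf : ContDiff ℝ 1 f) (hc : HasCompactSupport f) :
    ∫ z, dbar f z = 0 := by
  have hint : ∀ v : ℂ, Integrable (fun z => fderiv ℝ f z v) := by
    intro v
    have hcont : Continuous (fun z => fderiv ℝ f z v) :=
      (hf.continuous_fderiv one_ne_zero).clm_apply continuous_const
    exact hcont.integrable_of_hasCompactSupport (hc.fderiv_apply ℝ v)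
  unfold dbar dbarL
  rw [integral_div, integral_add (hint 1) ((hint _).const_mul _), integral_const_mul,
    integral_fderiv_eq_zero hf hc, integral_fderiv_eq_zero hf hc]
  simp

end Pool.Agent.Helper43.Oval
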