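import Pool.Agent.Helper43.Oval.Cutoff

/-!
# Stokes' theorem with a condition at infinity
-/

open Filter Topology Set MeasureTheory ComplexConjugate

namespace Pool.Agent.Helper43.Oval

theorem dbar_ofReal {u : ℂ → ℝ} {z : ℂ} (hu : DifferentiableAt ℝ u z) :
    dbar (fun z => (u z : ℂ)) z = dbarL (Complex.ofRealCLM ∘L fderiv ℝ u z) := by
  unfold dbar
  have h2 : HasFDerivAt (fun z => (u z : ℂ)) (Complex.ofRealCLM ∘L fderiv ℝ u z) z :=
    Complex.ofRealCLM.hasFDerivAt.comp z hu.hasFDerivAt
  rw [h2.fderiv]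

/-- the radial argument of the cut-off at infinity -/
noncomputable def rad (R : ℝ) (z : ℂ) : ℝ := 3 - 2 / R ^ 2 * Complex.normSq z

theorem contDiff_rad (R : ℝ) : ContDiff ℝ 1 (rad R) := by
  have h : ContDiff ℝ 1 (fun z : ℂ => Complex.normSq z) := by
    have h1 : (fun z : ℂ => Complex.normSq z) = fun z : ℂ => z.re * z.re + z.im * z.im := by
      funext z
      exact Complex.normSq_apply z
    rw [h1]
    have hr : ContDiff ℝ 1 (fun z : ℂ => z.re) := Complex.reCLM.contDiff
    have hi : ContDiff ℝ 1 (fun z : ℂ => z.im) := Complex.imCLM.contDiff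
    exact (hr.mul hr).add (hi.mul hi)
  exact contDiff_const.sub (contDiff_const.mul h)

theorem dbar_rad (R : ℝ) (z : ℂ) :
    dbar (fun z => (rad R z : ℂ)) z = -((2 / R ^ 2 : ℝ) : ℂ) * z := by
  have h1 : (fun z => (rad R z : ℂ)) = fun z => 3 - ((2 / R ^ 2 : ℝ) : ℂ) * (z * conj z) := by
    funext z
    unfold rad
    rw [Complex.mul_conj]
    push_cast
    ring
  have hid : DifferentiableAt ℝ (fun z : ℂ => z) z := differentiableAt_id
  have hconj : DifferentiableAt ℝ (fun z : ℂ => conj z) z :=
    (Complex.conjCLE : ℂ →L[ℝ] ℂ).differentiableAt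
  have h2 : DifferentiableAt ℝ (fun z : ℂ => z * conj z) z := hid.mul hconj
  have h3 : DifferentiableAt ℝ (fun z : ℂ => ((2 / R ^ 2 : ℝ) : ℂ) * (z * conj z)) z :=
    (differentiableAt_const _).mul h2
  rw [h1, dbar_sub (differentiableAt_const _) h3, dbar_const,
    dbar_mul (differentiableAt_const _) h2, dbar_const, dbar_mul hid hconj, dbar_conj,
    dbar_of_differentiableAt (f := fun z => z) differentiableAt_id]
  ring

/-- If `G` is continuously differentiable, `∂G/∂(conj z)` has compact support and `z G(z) → 0` at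
infinity, then the integral of `∂G/∂(conj z)` vanishes. -/
theorem integral_dbar_eq_zero_of_tendsto {G : ℂ → ℂ} (hG : ContDiff ℝ 1 G)
    (hc : HasCompactSupport (dbar G))
    (hlim : Tendsto (fun z => z * G z) (Bornology.cobounded ℂ) (𝓝 0)) :
    ∫ z, dbar G z = 0 := by
  rw [← norm_le_zero_iff]
  refine le_of_forall_pos_le_add fun δ hδ => ?_
  rw [zero_add]
  -- choose a large radius
  obtain ⟨R₁, hR₁⟩ := hc.isBounded.subset_closedBall 0
  have hev : ∀ᶠ z in Bornology.cobounded ℂ, ‖z * G z‖ < δ / (8 * Real.pi) := by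
    have h1 := (tendsto_zero_iff_norm_tendsto_zero.mp hlim)
    exact h1.eventually (gt_mem_nhds (by positivity))
  obtain ⟨R₂, -, hR₂⟩ := (Metric.hasBasis_cobounded_compl_closedBall (0 : ℂ)).eventually_iff.mp hev
  set R : ℝ := max (max R₁ R₂) 0 + 1 with hR
  have hR0 : 0 < R := by positivity
  have hRR₁ : R₁ < R := by
    have := le_max_left (max R₁ R₂) 0
    have := le_max_left R₁ R₂
    linarith
  have hRR₂ : R₂ < R := by
    have := le_max_left (max R₁ R₂) 0
    have := le_max_right R₁ R₂
    linarith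
  set u : ℂ → ℂ := fun z => ((step (rad R z) : ℝ) : ℂ) with hu
  have huC : ContDiff ℝ 1 u :=
    Complex.ofRealCLM.contDiff.comp (contDiff_step.comp (contDiff_rad R))
  have hradd : ∀ z, DifferentiableAt ℝ (rad R) z := fun z =>
    (contDiff_rad R).differentiable one_ne_zero z
  have hdu : ∀ z, dbar u z = ((tent (rad R z) : ℝ) : ℂ) * (-((2 / R ^ 2 : ℝ) : ℂ) * z) := by
    intro z
    rw [hu, dbar_ofReal_comp (hasDerivAt_step _) (hradd z), ← dbar_ofReal (hradd z), dbar_rad]
  -- values of `u`
  have hu1 : ∀ z, ‖z‖ ≤ R → u z = 1 := by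
    intro z hz
    rw [hu]
    simp only
    rw [step_of_ge]
    · simp
    · unfold rad
      have h1 : Complex.normSq z ≤ R ^ 2 := by
        rw [Complex.normSq_eq_norm_sq]
        exact pow_le_pow_left₀ (norm_nonneg _) hz 2
      have h2 : 2 / R ^ 2 * Complex.normSq z ≤ 2 / R ^ 2 * R ^ 2 :=
        mul_le_mul_of_nonneg_left h1 (by positivity)
      have h3 : 2 / R ^ 2 * R ^ 2 = 2 := by field_simp
      linarith
  have hradneg : ∀ z, 2 * R ≤ ‖z‖ → rad R z ≤ -1 := by
    intro z hz
    unfold rad
    have h1 : (2 * R) ^ 2 ≤ Complex.normSq z := by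
      rw [Complex.normSq_eq_norm_sq]
      exact pow_le_pow_left₀ (by positivity) hz 2
    have h2 : 2 / R ^ 2 * (2 * R) ^ 2 ≤ 2 / R ^ 2 * Complex.normSq z :=
      mul_le_mul_of_nonneg_left h1 (by positivity)
    have h3 : 2 / R ^ 2 * (2 * R) ^ 2 = 8 := by
      field_simp
      norm_num
    linarith
  have hu0 : ∀ z, 2 * R ≤ ‖z‖ → u z = 0 := by
    intro z hz
    rw [hu]
    simp only
    rw [step_of_le (hradneg z hz)]
    simp
  have hGu : ContDiff ℝ 1 (fun z => G z * u z) := hG.mul huC
  have hGuc : HasCompactSupport (fun z => G z * u z) := by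
    refine HasCompactSupport.of_support_subset_isCompact (isCompact_closedBall (0 : ℂ) (2 * R)) ?_
    intro z hz
    by_contra h
    apply hz
    rw [mem_closedBall_zero_iff, not_le] at h
    show G z * u z = 0
    rw [hu0 z h.le, mul_zero]
  have h0 := integral_dbar_eq_zero hGu hGuc
  have hsplit : ∀ z, dbar (fun z => G z * u z) z = G z * dbar u z + dbar G z := by
    intro z
    rw [dbar_mul (hG.differentiable one_ne_zero z) (huC.differentiable one_ne_zero z)]
    congr 1
    by_cases hz : z ∈ tsupport (dbar G)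
    · have h1 := hR₁ hz
      rw [mem_closedBall_zero_iff] at h1
      rw [hu1 z (by linarith), one_mul]
    · rw [image_eq_zero_of_notMem_tsupport hz, mul_zero]
  have hi1 : Integrable (dbar G) :=
    (continuous_dbar hG).integrable_of_hasCompactSupport hc
  have hdu0 : ∀ z ∉ Metric.ball (0 : ℂ) (2 * R), G z * dbar u z = 0 := by
    intro z hz
    rw [mem_ball_zero_iff, not_lt] at hz
    rw [hdu, tent_of_abs_ge]
    · simp
    · have := hradneg z hz
      rw [abs_of_nonpos (by linarith)]
      linarith
  have hcont : Continuous fun z => G z * dbar u z := hG.continuous.mul (continuous_dbar huC)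
  have hi2 : Integrable (fun z => G z * dbar u z) := by
    refine hcont.integrable_of_hasCompactSupport ?_
    refine HasCompactSupport.of_support_subset_isCompact (isCompact_closedBall (0 : ℂ) (2 * R)) ?_
    intro z hz
    by_contra h
    exact hz (hdu0 z fun h1 => h (Metric.ball_subset_closedBall h1))
  simp only [hsplit] at h0
  rw [integral_add hi2 hi1] at h0
  have h1 : ∫ z, dbar G z = - ∫ z, G z * dbar u z := by
    linear_combination h0
  rw [h1, norm_neg]
  have h2 : ∫ z, G z * dbar u z = ∫ z in Metric.ball (0 : ℂ) (2 * R), G z * dbar u z :=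
    (setIntegral_eq_integral_of_forall_compl_eq_zero hdu0).symm
  rw [h2]
  have hbound : ∀ z ∈ Metric.ball (0 : ℂ) (2 * R),
      ‖G z * dbar u z‖ ≤ 2 / R ^ 2 * (δ / (8 * Real.pi)) := by
    intro z _
    by_cases hz : ‖z‖ ≤ R
    · have : dbar u z = 0 := by
        rw [hdu, tent_of_abs_ge]
        · simp
        · have h1 : Complex.normSq z ≤ R ^ 2 := by
            rw [Complex.normSq_eq_norm_sq]
            exact pow_le_pow_left₀ (norm_nonneg _) hz 2
          have h2 : 2 / R ^ 2 * Complex.normSq z ≤ 2 / R ^ 2 * R ^ 2 :=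
            mul_le_mul_of_nonneg_left h1 (by positivity)
          have h3 : 2 / R ^ 2 * R ^ 2 = 2 := by field_simp
          have h4 : 1 ≤ rad R z := by
            unfold rad
            linarith
          rw [abs_of_nonneg (by linarith)]
          exact h4
      rw [this, mul_zero, norm_zero]
      positivity
    · push Not at hz
      have h3 : ‖z * G z‖ < δ / (8 * Real.pi) := by
        refine hR₂ ?_
        rw [mem_compl_iff, mem_closedBall_zero_iff, not_le]
        linarith
      rw [hdu]
      have h4 : G z * (((tent (rad R z) : ℝ) : ℂ) * (-((2 / R ^ 2 : ℝ) : ℂ) * z)) =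
          ((tent (rad R z) : ℝ) : ℂ) * (-((2 / R ^ 2 : ℝ) : ℂ)) * (z * G z) := by ring
      rw [h4, norm_mul, norm_mul, norm_neg, Complex.norm_real, Complex.norm_real,
        Real.norm_eq_abs, Real.norm_eq_abs, abs_of_nonneg (tent_nonneg _),
        abs_of_nonneg (by positivity)]
      have h5 := tent_le_one (rad R z)
      have h6 := tent_nonneg (rad R z)
      calc tent (rad R z) * (2 / R ^ 2) * ‖z * G z‖
          ≤ 1 * (2 / R ^ 2) * (δ / (8 * Real.pi)) := by
            refine mul_le_mul (mul_le_mul_of_nonneg_right h5 (by positivity)) h3.le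
              (norm_nonneg _) (by positivity)
        _ = 2 / R ^ 2 * (δ / (8 * Real.pi)) := by ring
  have hfin : volume (Metric.ball (0 : ℂ) (2 * R)) < ⊤ := measure_ball_lt_top
  refine (norm_setIntegral_le_of_norm_le_const hfin hbound).trans ?_
  have hvol : (volume : Measure ℂ).real (Metric.ball (0 : ℂ) (2 * R)) = (2 * R) ^ 2 * Real.pi := by
    rw [Measure.real, Complex.volume_ball, ENNReal.toReal_mul, ENNReal.toReal_pow,
      ENNReal.toReal_ofReal (by positivity)]
    rfl
  rw [hvol]
  have hpi := Real.pi_pos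
  have : 2 / R ^ 2 * (δ / (8 * Real.pi)) * ((2 * R) ^ 2 * Real.pi) = δ := by
    field_simp
    ring
  rw [this]

end Pool.Agent.Helper43.Oval
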