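import Pool.Agent.Helper32.Oval.Defs
import Pool.Agent.Helper43.Oval.Cutoff

/-!
# The exterior Cauchy transform continues across the oval, with the Schwarz function as jump
-/

open Filter Topology Set MeasureTheory ComplexConjugate
open Pool.Agent.Helper32.Oval

namespace Pool.Agent.Helper43.Oval

/-- A collar with a Schwarz function. -/
structure SCollar (Γ Ω N : Set ℂ) (Q : ℂ → ℝ) (ε : ℝ) (V : Set ℂ) (S : ℂ → ℂ) (C : ℝ) : Prop
    extends Collar Γ Ω N Q ε where
  openV : IsOpen V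
  subV : N ⊆ V
  an : AnalyticOnNhd ℂ S V
  Cnonneg : 0 ≤ C
  bound : ∀ z ∈ N, ‖conj z - S z‖ ≤ C * |Q z|

namespace SCollar

variable {Γ Ω N : Set ℂ} {Q : ℂ → ℝ} {ε : ℝ} {V : Set ℂ} {S : ℂ → ℂ} {C : ℝ}

/-- `χ` as a complex valued function -/
noncomputable def kap (Ω N : Set ℂ) (Q : ℂ → ℝ) (c δ : ℝ) (z : ℂ) : ℂ := (chi Ω N Q c δ z : ℝ)

theorem contDiff_kap (h : SCollar Γ Ω N Q ε V S C) {c δ : ℝ} (hδ : 0 < δ) (hc : |c| + δ ≤ ε) :
    ContDiff ℝ 1 (kap Ω N Q c δ) :=
  Complex.ofRealCLM.contDiff.comp (h.contDiff_chi hδ hc)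

theorem dbar_kap_of_notMem (h : SCollar Γ Ω N Q ε V S C) {c δ : ℝ} (hδ : 0 < δ)
    (hc : |c| + δ ≤ ε) {z : ℂ} (hz : z ∉ N) : dbar (kap Ω N Q c δ) z = 0 := by
  have := h.dbar_chi hδ hc z
  rw [if_neg hz] at this
  exact this

theorem dbar_kap_of_mem (h : SCollar Γ Ω N Q ε V S C) {c δ : ℝ} (hδ : 0 < δ)
    (hc : |c| + δ ≤ ε) {z : ℂ} (hz : z ∈ N) :
    dbar (kap Ω N Q c δ) z = ((tent ((Q z - c) / δ) / δ : ℝ) : ℂ) * dq Q z := by
  have := h.dbar_chi hδ hc z
  rw [if_pos hz] at this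
  exact this

theorem tent_eq_zero {c δ : ℝ} (hδ : 0 < δ) {q : ℝ} (hq : δ ≤ |q - c|) :
    tent ((q - c) / δ) = 0 := by
  refine tent_of_abs_ge ?_
  rw [abs_div, abs_of_pos hδ, le_div_iff₀ hδ, one_mul]
  exact hq

theorem kap_far (h : SCollar Γ Ω N Q ε V S C) {c δ : ℝ} (hδ : 0 < δ) (hc : |c| + δ ≤ ε) {z : ℂ}
    (hz : ¬ (z ∈ N ∧ |Q z| ≤ ε)) :
    (z ∈ Ω ∧ kap Ω N Q c δ =ᶠ[𝓝 z] fun _ => 0) ∨
      (z ∉ closure Ω ∧ kap Ω N Q c δ =ᶠ[𝓝 z] fun _ => 1) := by
  rcases h.chi_far hδ hc hz with ⟨h1, h2⟩ | ⟨h1, h2⟩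
  · left
    refine ⟨h1, ?_⟩
    filter_upwards [h2] with y hy
    simp [kap, hy]
  · right
    refine ⟨h1, ?_⟩
    filter_upwards [h2] with y hy
    simp [kap, hy]

/-- the density of the exterior germ -/
noncomputable def vv (Ω N : Set ℂ) (Q : ℂ → ℝ) (S : ℂ → ℂ) (c δ : ℝ) (z : ℂ) : ℂ :=
  S z * dbar (kap Ω N Q c δ) z

/-- the transition zone -/
def zone (N : Set ℂ) (Q : ℂ → ℝ) (c δ : ℝ) : Set ℂ := {z | z ∈ N ∧ |Q z - c| ≤ δ}

theorem isCompact_zone (h : SCollar Γ Ω N Q ε V S C) (c δ : ℝ) : IsCompact (zone N Q c δ) := by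
  have h1 : IsClosed {z | |Q z - c| ≤ δ} :=
    isClosed_le (continuous_abs.comp (h.smooth.continuous.sub continuous_const)) continuous_const
  exact h.cpt.inter_right h1

theorem vv_eq_zero (h : SCollar Γ Ω N Q ε V S C) {c δ : ℝ} (hδ : 0 < δ) (hc : |c| + δ ≤ ε) {z : ℂ}
    (hz : z ∉ zone N Q c δ) : vv Ω N Q S c δ z = 0 := by
  unfold vv
  by_cases hzN : z ∈ N
  · have h1 : δ < |Q z - c| := by
      by_contra h2
      exact hz ⟨hzN, not_lt.mp h2⟩
    rw [h.dbar_kap_of_mem hδ hc hzN, tent_eq_zero hδ h1.le]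
    simp
  · rw [h.dbar_kap_of_notMem hδ hc hzN, mul_zero]

theorem continuousOn_S (h : SCollar Γ Ω N Q ε V S C) : ContinuousOn S N :=
  fun z hz => (h.an z (h.subV hz)).continuousAt.continuousWithinAt

theorem continuousOn_vv (h : SCollar Γ Ω N Q ε V S C) {c δ : ℝ} (hδ : 0 < δ)
    (hc : |c| + δ ≤ ε) : ContinuousOn (vv Ω N Q S c δ) N :=
  h.continuousOn_S.mul (continuous_dbar (h.contDiff_kap hδ hc)).continuousOn

theorem analyticOnNhd_cauchy_vv (h : SCollar Γ Ω N Q ε V S C) {c δ : ℝ} (hδ : 0 < δ)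
    (hc : |c| + δ ≤ ε) : AnalyticOnNhd ℂ (cauchy (vv Ω N Q S c δ)) (zone N Q c δ)ᶜ :=
  analyticOnNhd_cauchy (h.isCompact_zone c δ)
    ((h.continuousOn_vv hδ hc).mono fun _ hz => hz.1) fun _ hz => h.vv_eq_zero hδ hc hz

theorem differentiableAt_S (h : SCollar Γ Ω N Q ε V S C) {z : ℂ} (hz : z ∈ V) :
    DifferentiableAt ℝ S z :=
  (h.an z hz).differentiableAt.restrictScalars ℝ

theorem contDiffAt_S (h : SCollar Γ Ω N Q ε V S C) {z : ℂ} (hz : z ∈ V) :
    ContDiffAt ℝ 1 S z :=
  ((h.an z hz).contDiffAt (n := 1)).restrict_scalars ℝ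

/-- The difference of the two germs is the Schwarz function. -/
theorem sub_eq (h : SCollar Γ Ω N Q ε V S C) {a b : ℝ} (hb : 0 < b) (hab : b < a)
    (hc : a + b ≤ ε) {z : ℂ} (hz : z ∈ N) (hQ : |Q z| < a - b) :
    cauchy (vv Ω N Q S (-a) b) z - cauchy (vv Ω N Q S a b) z = S z := by
  have ha : 0 < a := hb.trans hab
  have hc1 : |(-a)| + b ≤ ε := by rw [abs_neg, abs_of_pos ha]; exact hc
  have hc2 : |a| + b ≤ ε := by rw [abs_of_pos ha]; exact hc
  set g : ℂ → ℂ := fun z => S z * (kap Ω N Q (-a) b z - kap Ω N Q a b z) with hg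
  have hk1 := h.contDiff_kap hb hc1
  have hk2 := h.contDiff_kap hb hc2
  have hfar : ∀ z ∉ N, g =ᶠ[𝓝 z] fun _ => 0 := by
    intro z hzN
    have h0 : ¬ (z ∈ N ∧ |Q z| ≤ ε) := fun h1 => hzN h1.1
    rcases h.kap_far hb hc1 h0 with ⟨hz1, h1⟩ | ⟨hz1, h1⟩ <;>
      rcases h.kap_far hb hc2 h0 with ⟨hz2, h2⟩ | ⟨hz2, h2⟩
    · filter_upwards [h1, h2] with y hy1 hy2
      simp [hg, hy1, hy2]
    · exact absurd (subset_closure hz1) hz2
    · exact absurd (subset_closure hz2) hz1
    · filter_upwards [h1, h2] with y hy1 hy2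
      simp [hg, hy1, hy2]
  have hgC : ContDiff ℝ 1 g := by
    rw [contDiff_iff_contDiffAt]
    intro z
    by_cases hz : z ∈ N
    · exact (h.contDiffAt_S (h.subV hz)).mul (hk1.contDiffAt.sub hk2.contDiffAt)
    · exact contDiffAt_const.congr_of_eventuallyEq (hfar z hz)
  have hgc : HasCompactSupport g := by
    refine HasCompactSupport.of_support_subset_isCompact h.cpt ?_
    intro z hz
    by_contra hzN
    exact hz (hfar z hzN).self_of_nhds
  have hdbar : ∀ z, dbar g z = vv Ω N Q S (-a) b z - vv Ω N Q S a b z := by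
    intro z
    by_cases hz : z ∈ N
    · have e1 : DifferentiableAt ℝ (kap Ω N Q (-a) b) z := hk1.differentiable one_ne_zero z
      have e2 : DifferentiableAt ℝ (kap Ω N Q a b) z := hk2.differentiable one_ne_zero z
      have e3 : DifferentiableAt ℝ (fun z => kap Ω N Q (-a) b z - kap Ω N Q a b z) z := e1.sub e2
      rw [hg, dbar_mul (h.differentiableAt_S (h.subV hz)) e3,
        dbar_of_differentiableAt (h.an z (h.subV hz)).differentiableAt]
      rw [dbar_sub e1 e2]
      unfold vv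
      ring
    · rw [dbar_congr (hfar z hz), dbar_const]
      unfold vv
      rw [h.dbar_kap_of_notMem hb hc1 hz, h.dbar_kap_of_notMem hb hc2 hz]
      simp
  have hz1 : z ∉ zone N Q (-a) b := by
    rintro ⟨-, h1⟩
    have := abs_lt.mp hQ
    have h2 := abs_le.mp h1
    linarith
  have hz2 : z ∉ zone N Q a b := by
    rintro ⟨-, h1⟩
    have := abs_lt.mp hQ
    have h2 := abs_le.mp h1
    linarith
  have hi1 : Integrable (fun ζ => vv Ω N Q S (-a) b ζ / (z - ζ)) :=
    integrable_kernel (h.isCompact_zone (-a) b)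
      ((h.continuousOn_vv hb hc1).mono fun _ hz => hz.1)
      (fun _ hz => h.vv_eq_zero hb hc1 hz) hz1
  have hi2 : Integrable (fun ζ => vv Ω N Q S a b ζ / (z - ζ)) :=
    integrable_kernel (h.isCompact_zone a b)
      ((h.continuousOn_vv hb hc2).mono fun _ hz => hz.1)
      (fun _ hz => h.vv_eq_zero hb hc2 hz) hz2
  have h3 : cauchy (vv Ω N Q S (-a) b) z - cauchy (vv Ω N Q S a b) z = cauchy (dbar g) z := by
    unfold cauchy
    rw [← mul_sub, ← integral_sub hi1 hi2]
    congr 1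
    refine integral_congr_ae (Eventually.of_forall fun ζ => ?_)
    simp only
    rw [hdbar, sub_div]
  rw [h3, cauchy_dbar hgC hgc, hg]
  simp only
  have e1 : kap Ω N Q (-a) b z = 1 := by
    unfold kap chi
    rw [if_pos hz, step_of_ge]
    · simp
    · rw [le_div_iff₀ hb]
      have := abs_lt.mp hQ
      linarith
  have e2 : kap Ω N Q a b z = 0 := by
    unfold kap chi
    rw [if_pos hz, step_of_le]
    · simp
    · rw [div_le_iff₀ hb]
      have := abs_lt.mp hQ
      linarith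
  rw [e1, e2]
  ring

/-- The exterior germ is the exterior Cauchy transform. -/
theorem eq_cauchyTransform (h : SCollar Γ Ω N Q ε V S C) {a b : ℝ} (hb : 0 < b) (hab : b < a)
    (hc : a + b ≤ ε) {z : ℂ} (hz : z ∉ closure Ω) :
    cauchy (vv Ω N Q S (-a) b) z = cauchyTransform Ω z := by
  have ha : 0 < a := hb.trans hab
  have hc1 : |(-a)| + b ≤ ε := by rw [abs_neg, abs_of_pos ha]; exact hc
  have hk1 := h.contDiff_kap hb hc1
  -- the small parameter
  set e : ℕ → ℝ := fun n => (a - b) / (3 * (n + 1)) with he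
  have hab' : 0 < a - b := by linarith
  have hepos : ∀ n, 0 < e n := fun n => by rw [he]; positivity
  have he3 : ∀ n, 3 * e n ≤ a - b := by
    intro n
    rw [he]
    have h1 : (0 : ℝ) < n + 1 := by positivity
    have h2 : 3 * ((a - b) / (3 * ((n : ℝ) + 1))) = (a - b) / (n + 1) := by
      field_simp
    simp only
    rw [h2]
    refine div_le_self hab'.le ?_
    have : (0 : ℝ) ≤ n := Nat.cast_nonneg n
    linarith
  have hetend : Tendsto e atTop (𝓝 0) := by
    have h1 : Tendsto (fun n : ℕ => (a - b) / 3 * (1 / ((n : ℝ) + 1))) atTop (𝓝 ((a - b) / 3 * 0)) :=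
      tendsto_one_div_add_atTop_nhds_zero_nat.const_mul _
    rw [mul_zero] at h1
    refine h1.congr fun n => ?_
    have h1 : (0 : ℝ) < n + 1 := by positivity
    rw [he]
    field_simp
  have hce : ∀ n, |(-(2 * e n))| + e n ≤ ε := by
    intro n
    rw [abs_neg, abs_of_pos (by have := hepos n; linarith)]
    have := he3 n
    linarith
  set f : ℕ → ℂ → ℂ := fun n z =>
    (1 - kap Ω N Q (-(2 * e n)) (e n) z) * (conj z - kap Ω N Q (-a) b z * S z) with hf
  have hconjD : ∀ z : ℂ, DifferentiableAt ℝ (fun z : ℂ => conj z) z := fun z =>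
    (Complex.conjCLE : ℂ →L[ℝ] ℂ).differentiableAt
  have hconjC : ContDiff ℝ 1 (fun z : ℂ => conj z) := Complex.conjCLE.contDiff
  -- values outside `N`
  have hfar : ∀ n, ∀ z ∉ N, (z ∈ Ω ∧ f n =ᶠ[𝓝 z] fun z => conj z) ∨
      (z ∉ closure Ω ∧ f n =ᶠ[𝓝 z] fun _ => 0) := by
    intro n z hzN
    have h0 : ¬ (z ∈ N ∧ |Q z| ≤ ε) := fun h1 => hzN h1.1
    rcases h.kap_far hb hc1 h0 with ⟨hz1, h1⟩ | ⟨hz1, h1⟩ <;>
      rcases h.kap_far (hepos n) (hce n) h0 with ⟨hz2, h2⟩ | ⟨hz2, h2⟩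
    · left
      refine ⟨hz1, ?_⟩
      filter_upwards [h1, h2] with y hy1 hy2
      simp [hf, hy1, hy2]
    · exact absurd (subset_closure hz1) hz2
    · exact absurd (subset_closure hz2) hz1
    · right
      refine ⟨hz1, ?_⟩
      filter_upwards [h1, h2] with y hy1 hy2
      simp [hf, hy1, hy2]
  have hfC : ∀ n, ContDiff ℝ 1 (f n) := by
    intro n
    rw [contDiff_iff_contDiffAt]
    intro z
    by_cases hz : z ∈ N
    · exact (contDiffAt_const.sub (h.contDiff_kap (hepos n) (hce n)).contDiffAt).mul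
        (hconjC.contDiffAt.sub (hk1.contDiffAt.mul (h.contDiffAt_S (h.subV hz))))
    · rcases hfar n z hz with ⟨-, h1⟩ | ⟨-, h1⟩
      · exact hconjC.contDiffAt.congr_of_eventuallyEq h1
      · exact contDiffAt_const.congr_of_eventuallyEq h1
  have hkap1 : ∀ n, ∀ z ∉ Ω, kap Ω N Q (-(2 * e n)) (e n) z = 1 := by
    intro n z hzΩ
    unfold kap chi
    by_cases hzN : z ∈ N
    · rw [if_pos hzN, step_of_ge]
      · simp
      · rw [le_div_iff₀ (hepos n)]
        have := h.nonneg_of_notMem hzN hzΩ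
        have := hepos n
        linarith
    · rw [if_neg hzN, if_neg hzΩ]
      simp
  have hf0 : ∀ n, ∀ z ∉ Ω, f n z = 0 := by
    intro n z hzΩ
    rw [hf]
    simp only
    rw [hkap1 n z hzΩ]
    ring
  have hfc : ∀ n, HasCompactSupport (f n) := by
    intro n
    refine HasCompactSupport.of_support_subset_isCompact h.cptΩ ?_
    intro z hz
    by_contra hzN
    exact hz (hf0 n z fun h1 => hzN (subset_closure h1))
  have hdbar : ∀ n z, dbar (f n) z =
      (1 - kap Ω N Q (-(2 * e n)) (e n) z) * (1 - vv Ω N Q S (-a) b z) -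
        (conj z - kap Ω N Q (-a) b z * S z) * dbar (kap Ω N Q (-(2 * e n)) (e n)) z := by
    intro n z
    by_cases hz : z ∈ N
    · have e1 : DifferentiableAt ℝ (kap Ω N Q (-a) b) z := hk1.differentiable one_ne_zero z
      have e2 : DifferentiableAt ℝ (kap Ω N Q (-(2 * e n)) (e n)) z :=
        (h.contDiff_kap (hepos n) (hce n)).differentiable one_ne_zero z
      have e3 := h.differentiableAt_S (h.subV hz)
      have e4 : DifferentiableAt ℝ (fun z => 1 - kap Ω N Q (-(2 * e n)) (e n) z) z :=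
        (differentiableAt_const _).sub e2
      have e5 : DifferentiableAt ℝ (fun z => kap Ω N Q (-a) b z * S z) z := e1.mul e3
      have e6 : DifferentiableAt ℝ (fun z => conj z - kap Ω N Q (-a) b z * S z) z :=
        (hconjD z).sub e5
      rw [hf]
      simp only
      rw [dbar_mul e4 e6, dbar_sub (differentiableAt_const _) e2, dbar_const,
        dbar_sub (hconjD z) e5, dbar_conj, dbar_mul e1 e3,
        dbar_of_differentiableAt (h.an z (h.subV hz)).differentiableAt]
      unfold vv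
      ring
    · have h0 : ¬ (z ∈ N ∧ |Q z| ≤ ε) := fun h1 => hz h1.1
      unfold vv
      rw [h.dbar_kap_of_notMem hb hc1 hz, h.dbar_kap_of_notMem (hepos n) (hce n) hz]
      rcases h.kap_far (hepos n) (hce n) h0 with ⟨hz2, h2⟩ | ⟨hz2, h2⟩
      · rcases hfar n z hz with ⟨h3, h4⟩ | ⟨h3, h4⟩
        · rw [dbar_congr h4, dbar_conj, h2.self_of_nhds]
          ring
        · exact absurd (subset_closure hz2) h3
      · rcases hfar n z hz with ⟨h3, h4⟩ | ⟨h3, h4⟩
        · exact absurd (subset_closure h3) hz2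
        · rw [dbar_congr h4, dbar_const, h2.self_of_nhds]
          ring
  have hdk0 : ∀ n, ∀ z ∉ Ω, dbar (kap Ω N Q (-(2 * e n)) (e n)) z = 0 := by
    intro n z hzΩ
    by_cases hzN : z ∈ N
    · rw [h.dbar_kap_of_mem (hepos n) (hce n) hzN, tent_eq_zero (hepos n)]
      · simp
      · have h1 := h.nonneg_of_notMem hzN hzΩ
        have h2 := hepos n
        have h3 := le_abs_self (Q z - -(2 * e n))
        linarith
    · exact h.dbar_kap_of_notMem (hepos n) (hce n) hzN
  have hd0 : ∀ n, ∀ z ∉ Ω, dbar (f n) z = 0 := by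
    intro n z hzΩ
    rw [hdbar, hkap1 n z hzΩ, hdk0 n z hzΩ]
    ring
  -- bounds
  obtain ⟨M₁, hM₁⟩ := h.cpt.exists_bound_of_continuousOn (h.continuousOn_vv hb hc1)
  obtain ⟨M₂, hM₂⟩ := h.cpt.exists_bound_of_continuousOn (continuous_dq h.smooth).continuousOn
  set M : ℝ := 1 + |M₁| + 3 * C * |M₂| with hM
  have hvv : ∀ z, ‖vv Ω N Q S (-a) b z‖ ≤ |M₁| := by
    intro z
    by_cases hz : z ∈ N
    · exact (hM₁ z hz).trans (le_abs_self _)
    · rw [h.vv_eq_zero hb hc1 (fun h1 => hz h1.1), norm_zero]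
      exact abs_nonneg _
  have hbd : ∀ n z, ‖dbar (f n) z‖ ≤ M := by
    intro n z
    have hC := h.Cnonneg
    have t1 : ‖(1 - kap Ω N Q (-(2 * e n)) (e n) z) * (1 - vv Ω N Q S (-a) b z)‖ ≤ 1 + |M₁| := by
      rw [norm_mul]
      have h1 : ‖1 - kap Ω N Q (-(2 * e n)) (e n) z‖ ≤ 1 := by
        have h2 := h.chi_bound (-(2 * e n)) (e n) z
        have h3 : 1 - kap Ω N Q (-(2 * e n)) (e n) z =
            ((1 - chi Ω N Q (-(2 * e n)) (e n) z : ℝ) : ℂ) := by
          unfold kap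
          push_cast
          ring
        rw [h3, Complex.norm_real, Real.norm_eq_abs, abs_le]
        constructor <;> linarith [h2.1, h2.2]
      have h4 : ‖1 - vv Ω N Q S (-a) b z‖ ≤ 1 + |M₁| := by
        refine (norm_sub_le _ _).trans ?_
        rw [norm_one]
        linarith [hvv z]
      calc ‖1 - kap Ω N Q (-(2 * e n)) (e n) z‖ * ‖1 - vv Ω N Q S (-a) b z‖
          ≤ 1 * (1 + |M₁|) := mul_le_mul h1 h4 (norm_nonneg _) zero_le_one
        _ = 1 + |M₁| := one_mul _
    have t2 : ‖(conj z - kap Ω N Q (-a) b z * S z) * dbar (kap Ω N Q (-(2 * e n)) (e n)) z‖ ≤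
        3 * C * |M₂| := by
      by_cases hzN : z ∈ N
      · rw [h.dbar_kap_of_mem (hepos n) (hce n) hzN]
        by_cases hq : e n ≤ |Q z - -(2 * e n)|
        · rw [tent_eq_zero (hepos n) hq]
          simp
          positivity
        · have h1 := abs_lt.mp (not_le.mp hq)
          have h2 := hepos n
          have h3 := he3 n
          have hQ1 : |Q z| ≤ 3 * e n := by
            rw [abs_le]
            constructor <;> linarith [h1.1, h1.2]
          have e1 : kap Ω N Q (-a) b z = 1 := by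
            unfold kap chi
            rw [if_pos hzN, step_of_ge]
            · simp
            · rw [le_div_iff₀ hb]
              linarith [h1.1]
          rw [e1, one_mul, norm_mul, norm_mul, Complex.norm_real, Real.norm_eq_abs, abs_div,
            abs_of_pos h2, abs_of_nonneg (tent_nonneg _)]
          have h4 : ‖conj z - S z‖ ≤ C * (3 * e n) :=
            (h.bound z hzN).trans (mul_le_mul_of_nonneg_left hQ1 hC)
          have h5 : tent ((Q z - -(2 * e n)) / e n) / e n ≤ 1 / e n :=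
            div_le_div_of_nonneg_right (tent_le_one _) h2.le
          have h6 : ‖dq Q z‖ ≤ |M₂| := (hM₂ z hzN).trans (le_abs_self _)
          calc ‖conj z - S z‖ * (tent ((Q z - -(2 * e n)) / e n) / e n * ‖dq Q z‖)
              ≤ (C * (3 * e n)) * (1 / e n * |M₂|) := by
                refine mul_le_mul h4 (mul_le_mul h5 h6 (norm_nonneg _) (by positivity))
                  (mul_nonneg (div_nonneg (tent_nonneg _) h2.le) (norm_nonneg _)) (by positivity)
            _ = 3 * C * |M₂| := by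
                field_simp
      · rw [h.dbar_kap_of_notMem (hepos n) (hce n) hzN, mul_zero, norm_zero]
        positivity
    rw [hdbar]
    refine (norm_sub_le _ _).trans ?_
    rw [hM]
    linarith
  -- pointwise limits
  have hlim : ∀ ζ ∈ Ω, Tendsto (fun n => dbar (f n) ζ) atTop (𝓝 (1 - vv Ω N Q S (-a) b ζ)) := by
    intro ζ hζ
    refine tendsto_const_nhds.congr' ?_
    have hev : ∀ᶠ n in atTop, kap Ω N Q (-(2 * e n)) (e n) ζ = 0 ∧
        dbar (kap Ω N Q (-(2 * e n)) (e n)) ζ = 0 := by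
      by_cases hζN : ζ ∈ N
      · have h1 := h.lt_of_mem hζN hζ
        have h2 : ∀ᶠ n in atTop, e n < -(Q ζ) / 3 :=
          hetend.eventually (gt_mem_nhds (by linarith))
        filter_upwards [h2] with n hn
        have h3 := hepos n
        constructor
        · unfold kap chi
          rw [if_pos hζN, step_of_le]
          · simp
          · rw [div_le_iff₀ h3]
            linarith
        · rw [h.dbar_kap_of_mem (hepos n) (hce n) hζN, tent_eq_zero (hepos n)]
          · simp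
          · have h4 := neg_abs_le (Q ζ - -(2 * e n))
            linarith
      · refine Eventually.of_forall fun n => ⟨?_, h.dbar_kap_of_notMem (hepos n) (hce n) hζN⟩
        unfold kap chi
        rw [if_neg hζN, if_pos hζ]
        simp
    filter_upwards [hev] with n hn
    rw [hdbar, hn.1, hn.2]
    ring
  -- distance to the closure of `Ω`
  obtain ⟨d, hd, hball⟩ := Metric.isOpen_iff.mp isClosed_closure.isOpen_compl z hz
  have hdist : ∀ ζ ∈ Ω, d ≤ ‖z - ζ‖ := by
    intro ζ hζ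
    by_contra h1
    push Not at h1
    rw [← dist_eq_norm, dist_comm] at h1
    exact hball h1 (subset_closure hζ)
  have hvol : volume Ω < ⊤ := lt_of_le_of_lt (measure_mono subset_closure) h.cptΩ.measure_lt_top
  have hmeasΩ : MeasurableSet Ω := h.openΩ.measurableSet
  have hDCT : Tendsto (fun n => ∫ ζ in Ω, dbar (f n) ζ / (z - ζ)) atTop
      (𝓝 (∫ ζ in Ω, (1 - vv Ω N Q S (-a) b ζ) / (z - ζ))) := by
    refine tendsto_integral_of_dominated_convergence (fun _ => M / d) ?_ ?_ ?_ ?_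
    · intro n
      have hm : Measurable (fun ζ => dbar (f n) ζ / (z - ζ)) :=
        (continuous_dbar (hfC n)).measurable.div (measurable_const.sub measurable_id)
      exact hm.aestronglyMeasurable
    · exact integrableOn_const hvol.ne
    · intro n
      filter_upwards [ae_restrict_mem hmeasΩ] with ζ hζ
      rw [norm_div]
      exact div_le_div₀ (by positivity [h.Cnonneg]) (hbd n ζ) hd (hdist ζ hζ)
    · filter_upwards [ae_restrict_mem hmeasΩ] with ζ hζ
      exact (hlim ζ hζ).div_const _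
  have hzΩ : z ∉ Ω := fun h1 => hz (subset_closure h1)
  have hzero : ∀ n, ∫ ζ in Ω, dbar (f n) ζ / (z - ζ) = 0 := by
    intro n
    have h1 := pompeiu (hfC n) (hfc n) z
    rw [hf0 n z hzΩ] at h1
    have h2 : ∫ ζ in Ω, dbar (f n) ζ / (z - ζ) = ∫ ζ, dbar (f n) ζ / (z - ζ) := by
      refine setIntegral_eq_integral_of_forall_compl_eq_zero fun ζ hζ => ?_
      rw [hd0 n ζ hζ, zero_div]
    rw [h2]
    have h3 : (1 / Real.pi : ℂ) ≠ 0 := by
      have : (Real.pi : ℂ) ≠ 0 := by exact_mod_cast Real.pi_ne_zero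
      exact one_div_ne_zero this
    exact (mul_eq_zero.mp h1.symm).resolve_left h3
  have hfin : ∫ ζ in Ω, (1 - vv Ω N Q S (-a) b ζ) / (z - ζ) = 0 := by
    refine tendsto_nhds_unique hDCT ?_
    simp only [hzero]
    exact tendsto_const_nhds
  have hz1 : z ∉ zone N Q (-a) b := by
    rintro ⟨h1, h2⟩
    have h3 := (abs_le.mp h2).2
    exact hzΩ (h.neg z h1 (by linarith))
  have hi1 : IntegrableOn (fun ζ => vv Ω N Q S (-a) b ζ / (z - ζ)) Ω :=
    (integrable_kernel (h.isCompact_zone (-a) b)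
      ((h.continuousOn_vv hb hc1).mono fun _ hz => hz.1)
      (fun _ hz => h.vv_eq_zero hb hc1 hz) hz1).integrableOn
  have hi2 : IntegrableOn (fun ζ => 1 / (z - ζ)) Ω :=
    (integrableOn_kernel (v := fun _ => 1) h.cptΩ continuousOn_const hz).mono_set subset_closure
  have hsplit : ∫ ζ in Ω, (1 - vv Ω N Q S (-a) b ζ) / (z - ζ) =
      (∫ ζ in Ω, 1 / (z - ζ)) - ∫ ζ in Ω, vv Ω N Q S (-a) b ζ / (z - ζ) := by
    rw [← integral_sub hi2 hi1]
    refine integral_congr_ae (Eventually.of_forall fun ζ => ?_)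
    simp only
    rw [sub_div]
  rw [hsplit, sub_eq_zero] at hfin
  unfold cauchy cauchyTransform
  rw [hfin]
  congr 1
  refine (setIntegral_eq_integral_of_forall_compl_eq_zero fun ζ hζ => ?_).symm
  rw [h.vv_eq_zero hb hc1, zero_div]
  rintro ⟨h1, h2⟩
  have h3 := (abs_le.mp h2).2
  exact hζ (h.neg ζ h1 (by linarith))

end SCollar

end Pool.Agent.Helper43.Oval
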