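import Mathlib

/-!
# Local structure of the zero set of a real function near a regular zero
-/

open Filter Topology Set

namespace Pool.Agent.Helper43.Oval

/-- Near a regular zero `g` of `P` there are arbitrarily small open neighbourhoods `D` such that
the parts of `D` where `P` is positive, negative, or zero are connected, and the zeros in `D` are
limits of both of the other parts. -/
theorem local_structure {P : ℂ → ℝ} (hP : ContDiff ℝ 1 P) {g : ℂ} (hg : P g = 0)
    (hd : fderiv ℝ P g ≠ 0) {N : Set ℂ} (hN : N ∈ 𝓝 g) :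
    ∃ D ⊆ N, IsOpen D ∧ g ∈ D ∧ IsPreconnected (D ∩ {z | 0 < P z}) ∧
      IsPreconnected (D ∩ {z | P z < 0}) ∧ IsPreconnected (D ∩ {z | P z = 0}) ∧
      ∀ x ∈ D, P x = 0 → x ∈ closure (D ∩ {z | 0 < P z}) ∧ x ∈ closure (D ∩ {z | P z < 0}) := by
  have hs : HasStrictFDerivAt P (fderiv ℝ P g) g :=
    (hP.contDiffAt).hasStrictFDerivAt one_ne_zero
  have hr : (fderiv ℝ P g).range = ⊤ := by
    rw [LinearMap.range_eq_top]
    exact LinearMap.surjective (fun h => hd (ContinuousLinearMap.coe_injective h))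
  set e := hs.implicitToOpenPartialHomeomorph P (fderiv ℝ P g) hr with he
  have hfst : ∀ x, (e x).1 = P x := fun x => hs.implicitToOpenPartialHomeomorph_fst hr x
  have heg : e g = (0, 0) := by
    rw [he, hs.implicitToOpenPartialHomeomorph_self hr, hg]
  have hgs : g ∈ e.source := hs.mem_implicitToOpenPartialHomeomorph_source hr
  have hgt : ((0 : ℝ), (0 : (fderiv ℝ P g).ker)) ∈ e.target := by
    rw [← heg]
    exact e.map_source hgs
  have hsymm : e.symm (0, 0) = g := by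
    rw [← heg]
    exact e.left_inv hgs
  -- a small box
  have hnhds : e.target ∩ e.symm ⁻¹' N ∈ 𝓝 ((0 : ℝ), (0 : (fderiv ℝ P g).ker)) := by
    refine inter_mem (e.open_target.mem_nhds hgt) ?_
    have hc : ContinuousAt e.symm (0, 0) := e.continuousAt_symm hgt
    refine hc ?_
    rw [hsymm]
    exact hN
  obtain ⟨ε, hε, hbox⟩ := Metric.mem_nhds_iff.mp hnhds
  set B : Set (ℝ × (fderiv ℝ P g).ker) := Metric.ball (0 : ℝ) ε ×ˢ Metric.ball 0 ε with hB
  have hB' : B = Metric.ball ((0 : ℝ), (0 : (fderiv ℝ P g).ker)) ε := ball_prod_same _ _ _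
  have hBt : B ⊆ e.target := by
    rw [hB']
    exact fun x hx => (hbox hx).1
  have hBN : ∀ x ∈ B, e.symm x ∈ N := by
    rw [hB']
    exact fun x hx => (hbox hx).2
  have hBo : IsOpen B := by
    rw [hB']
    exact Metric.isOpen_ball
  have h0B : ((0 : ℝ), (0 : (fderiv ℝ P g).ker)) ∈ B := by
    rw [hB']
    exact Metric.mem_ball_self hε
  refine ⟨e.symm '' B, ?_, ?_, ?_, ?_⟩
  · rintro _ ⟨x, hx, rfl⟩
    exact hBN x hx
  · exact e.symm.isOpen_image_of_subset_source hBo hBt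
  · exact ⟨(0, 0), h0B, hsymm⟩
  have hPs : ∀ x ∈ B, P (e.symm x) = x.1 := by
    intro x hx
    rw [← hfst, e.right_inv (hBt hx)]
  have key : ∀ T : Set ℝ, e.symm '' B ∩ {z | P z ∈ T} =
      e.symm '' ((Metric.ball (0 : ℝ) ε ∩ T) ×ˢ Metric.ball (0 : (fderiv ℝ P g).ker) ε) := by
    intro T
    ext z
    constructor
    · rintro ⟨⟨x, hx, rfl⟩, hz⟩
      refine ⟨x, ⟨⟨hx.1, ?_⟩, hx.2⟩, rfl⟩
      have := hPs x hx
      simp only [Set.mem_ofPred_eq] at hz
      rwa [this] at hz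
    · rintro ⟨x, hx, rfl⟩
      have hxB : x ∈ B := ⟨hx.1.1, hx.2⟩
      refine ⟨⟨x, hxB, rfl⟩, ?_⟩
      simp only [Set.mem_ofPred_eq]
      rw [hPs x hxB]
      exact hx.1.2
  have hconn : ∀ T : Set ℝ, Convex ℝ T → IsPreconnected (e.symm '' B ∩ {z | P z ∈ T}) := by
    intro T hT
    rw [key T]
    refine IsPreconnected.image ?_ _ ?_
    · exact (((convex_ball (0 : ℝ) ε).inter hT).prod (convex_ball _ _)).isPreconnected
    · refine e.symm.continuousOn.mono ?_
      rintro x hx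
      exact hBt ⟨hx.1.1, hx.2⟩
  refine ⟨hconn (Ioi 0) (convex_Ioi 0), hconn (Iio 0) (convex_Iio 0), hconn {0}
    (convex_singleton 0), ?_⟩
  rintro _ ⟨x, hx, rfl⟩ hPx
  rw [hPs x hx] at hPx
  have hx0 : x = (0, x.2) := Prod.ext hPx rfl
  have hcx : ContinuousAt e.symm x := e.continuousAt_symm (hBt hx)
  have hlim : ∀ s : ℝ, Tendsto (fun t : ℝ => e.symm (t * s, x.2)) (𝓝[>] 0) (𝓝 (e.symm x)) := by
    intro s
    have h1 : Tendsto (fun t : ℝ => ((t * s, x.2) : ℝ × (fderiv ℝ P g).ker)) (𝓝[>] 0) (𝓝 x) := by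
      have : Tendsto (fun t : ℝ => ((t * s, x.2) : ℝ × (fderiv ℝ P g).ker)) (𝓝 0)
          (𝓝 (0 * s, x.2)) := by
        refine Continuous.tendsto (by fun_prop) 0
      rw [zero_mul, ← hx0] at this
      exact this.mono_left nhdsWithin_le_nhds
    exact hcx.tendsto.comp h1
  have hmem : ∀ s : ℝ, |s| = 1 → ∀ᶠ t : ℝ in 𝓝[>] 0, ((t * s, x.2) : ℝ × (fderiv ℝ P g).ker) ∈ B ∧
      0 < t := by
    intro s hs1
    have h2 : ∀ᶠ t : ℝ in 𝓝[>] 0, t < ε := by
      filter_upwards [nhdsWithin_le_nhds (Iio_mem_nhds hε)] with t ht using ht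
    filter_upwards [h2, self_mem_nhdsWithin] with t ht ht0
    refine ⟨⟨?_, hx.2⟩, ht0⟩
    rw [mem_ball_zero_iff, Real.norm_eq_abs, abs_mul, hs1, mul_one, abs_of_pos ht0]
    exact ht
  constructor
  · refine mem_closure_of_tendsto (hlim 1) ?_
    filter_upwards [hmem 1 (by simp)] with t ht
    refine ⟨⟨_, ht.1, rfl⟩, ?_⟩
    simp only [Set.mem_ofPred_eq]
    rw [hPs _ ht.1]
    simpa using ht.2
  · refine mem_closure_of_tendsto (hlim (-1)) ?_
    filter_upwards [hmem (-1) (by simp)] with t ht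
    refine ⟨⟨_, ht.1, rfl⟩, ?_⟩
    simp only [Set.mem_ofPred_eq]
    rw [hPs _ ht.1]
    simpa using ht.2

/-- A regular zero of `P` is not isolated in the zero set. -/
theorem frequently_zero {P : ℂ → ℝ} (hP : ContDiff ℝ 1 P) {g : ℂ} (hg : P g = 0)
    (hd : fderiv ℝ P g ≠ 0) : ∃ᶠ z in 𝓝[≠] g, P z = 0 := by
  have hs : HasStrictFDerivAt P (fderiv ℝ P g) g :=
    (hP.contDiffAt).hasStrictFDerivAt one_ne_zero
  have hr : (fderiv ℝ P g).range = ⊤ := by
    rw [LinearMap.range_eq_top]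
    exact LinearMap.surjective (fun h => hd (ContinuousLinearMap.coe_injective h))
  set L := fderiv ℝ P g with hL
  have hexp : ∀ h : ℂ, L h = h.re * L 1 + h.im * L Complex.I := by
    intro h
    have : h = h.re • (1 : ℂ) + h.im • Complex.I := by
      simp [Complex.re_add_im]
    conv_lhs => rw [this]
    rw [map_add, map_smul, map_smul, smul_eq_mul, smul_eq_mul]
  set k : ℂ := ⟨L Complex.I, - L 1⟩ with hk
  have hkL : L k = 0 := by
    rw [hexp, hk]
    ring
  have hk0 : k ≠ 0 := by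
    intro h0
    apply hd
    have h1 : L Complex.I = 0 := by simpa [hk] using congrArg Complex.re h0
    have h2 : L 1 = 0 := by simpa [hk] using congrArg Complex.im h0
    ext h
    rw [hexp, h1, h2]
    simp
  set k' : L.ker := ⟨k, hkL⟩ with hk'
  have hk'0 : k' ≠ 0 := fun h0 => hk0 (congrArg Subtype.val h0)
  set e := hs.implicitToOpenPartialHomeomorph P L hr with he
  have hfst : ∀ x, (e x).1 = P x := fun x => hs.implicitToOpenPartialHomeomorph_fst hr x
  have heg : e g = (0, 0) := by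
    rw [he, hs.implicitToOpenPartialHomeomorph_self hr, hg]
  have hgs : g ∈ e.source := hs.mem_implicitToOpenPartialHomeomorph_source hr
  have hgt : ((0 : ℝ), (0 : L.ker)) ∈ e.target := by
    rw [← heg]
    exact e.map_source hgs
  have hsymm : e.symm (0, 0) = g := by
    rw [← heg]
    exact e.left_inv hgs
  have hc : Tendsto (fun t : ℝ => ((0, t • k') : ℝ × L.ker)) (𝓝[≠] 0) (𝓝 (0, 0)) := by
    have : Tendsto (fun t : ℝ => ((0, t • k') : ℝ × L.ker)) (𝓝 0) (𝓝 (0, (0 : ℝ) • k')) :=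
      Continuous.tendsto (by fun_prop) 0
    rw [zero_smul] at this
    exact this.mono_left nhdsWithin_le_nhds
  have hmem : ∀ᶠ t : ℝ in 𝓝[≠] 0, ((0, t • k') : ℝ × L.ker) ∈ e.target :=
    hc (e.open_target.mem_nhds hgt)
  have hne : ∀ᶠ t : ℝ in 𝓝[≠] 0, e.symm (0, t • k') ∈ ({g}ᶜ : Set ℂ) := by
    filter_upwards [hmem, self_mem_nhdsWithin] with t ht ht0 heq
    rw [mem_singleton_iff] at heq
    have h1 : e (e.symm (0, t • k')) = e g := by rw [heq]
    rw [e.right_inv ht, heg, Prod.mk.injEq, smul_eq_zero] at h1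
    rcases h1.2 with h2 | h2
    · exact ht0 h2
    · exact hk'0 h2
  have htend : Tendsto (fun t : ℝ => e.symm (0, t • k')) (𝓝[≠] 0) (𝓝[≠] g) := by
    refine tendsto_nhdsWithin_iff.mpr ⟨?_, hne⟩
    have h1 := (e.continuousAt_symm hgt).tendsto.comp hc
    rw [hsymm] at h1
    exact h1
  refine htend.frequently (Eventually.frequently ?_)
  filter_upwards [hmem] with t ht
  rw [← hfst, e.right_inv ht]

end Pool.Agent.Helper43.Oval
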