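import Pool.Agent.Helper43.Oval.Schwarz
import Pool.Agent.Helper43.Oval.Jump
import Pool.Agent.Helper43.Oval.Infinity

/-!
# What the algebraic part needs from plane topology and analysis
-/

open Polynomial Filter Topology Set MeasureTheory ComplexConjugate
open Pool.Agent.Helper32.Oval

namespace Pool.Agent.Helper43.Oval

/-- the divided difference of a bivariate polynomial in the second variable -/
noncomputable def dd (p : Polynomial (Polynomial ℂ)) (z w w' : ℂ) : ℂ :=
  ∑ i ∈ Finset.range (p.natDegree + 1),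
    (p.coeff i).eval z * ∑ j ∈ Finset.range i, w ^ j * w' ^ (i - 1 - j)

theorem evalEval_sub_evalEval (p : Polynomial (Polynomial ℂ)) (z w w' : ℂ) :
    p.evalEval z w - p.evalEval z w' = dd p z w w' * (w - w') := by
  rw [evalEval_eq_sum, evalEval_eq_sum, ← Finset.sum_sub_distrib]
  unfold dd
  rw [Finset.sum_mul]
  refine Finset.sum_congr rfl fun i _ => ?_
  rw [mul_assoc, geom_sum₂_mul]
  ring

theorem dd_self (p : Polynomial (Polynomial ℂ)) (z w : ℂ) :
    dd p z w w = p.derivative.evalEval z w := by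
  have h1 := hasDerivAt_evalEval_snd p z w
  have h2 : HasDerivAt (fun w => p.evalEval z w) (dd p z w w) w := by
    have h3 : (fun w => p.evalEval z w) =
        fun w => ∑ i ∈ Finset.range (p.natDegree + 1), (p.coeff i).eval z * w ^ i :=
      funext fun w => evalEval_eq_sum p z w
    rw [h3]
    unfold dd
    refine HasDerivAt.fun_sum fun i _ => ?_
    refine HasDerivAt.const_mul _ ?_
    have h4 : ∑ j ∈ Finset.range i, w ^ j * w ^ (i - 1 - j) = i * w ^ (i - 1) := by
      rw [geom_sum₂_self]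
    rw [h4]
    exact hasDerivAt_pow i w
  exact h2.unique h1

theorem continuous_evalEval (p : Polynomial (Polynomial ℂ)) :
    Continuous fun v : ℂ × ℂ => p.evalEval v.1 v.2 :=
  (contDiff_evalEval p (n := 0)).continuous

theorem continuousOn_dd (p : Polynomial (Polynomial ℂ)) {V : Set ℂ} {f g : ℂ → ℂ}
    (hf : ContinuousOn f V) (hg : ContinuousOn g V) :
    ContinuousOn (fun z => dd p z (f z) (g z)) V := by
  unfold dd
  refine continuousOn_finsetSum _ fun i _ => ?_
  refine ContinuousOn.mul (p.coeff i).continuous.continuousOn ?_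
  refine continuousOn_finsetSum _ fun j _ => ?_
  exact (hf.pow _).mul (hg.pow _)

theorem exists_eps {N O : Set ℂ} {Q : ℂ → ℝ} (hN : IsCompact N) (hQ : Continuous Q)
    (hO : IsOpen O) (hz : ∀ z ∈ N, Q z = 0 → z ∈ O) :
    ∃ ε > 0, ∀ z ∈ N, |Q z| ≤ ε → z ∈ O := by
  have hK : IsCompact (N \ O) := hN.diff hO
  rcases (N \ O).eq_empty_or_nonempty with h | h
  · refine ⟨1, one_pos, fun z hz _ => ?_⟩
    by_contra h1
    have : z ∈ N \ O := ⟨hz, h1⟩
    rw [h] at this
    exact this
  · obtain ⟨m, hm, hmin⟩ := hK.exists_isMinOn h (continuous_abs.comp hQ).continuousOn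
    have hpos : 0 < |Q m| := by
      rw [abs_pos]
      intro h0
      exact hm.2 (hz m hm.1 h0)
    refine ⟨|Q m| / 2, by positivity, fun z hz hle => ?_⟩
    by_contra h1
    have h2 : |Q m| ≤ |Q z| := hmin (show z ∈ N \ O from ⟨hz, h1⟩)
    linarith

theorem package (p : Polynomial (Polynomial ℂ)) (P : ℂ → ℝ)
    (hP : ∀ z, p.evalEval z (conj z) = (P z : ℂ))
    (Γ Ω : Set ℂ) (hΓ : IsCompact Γ)
    (hcomp : ∃ x ∈ {z | P z = 0}, Γ = connectedComponentIn {z | P z = 0} x)
    (hns : ∀ z ∈ Γ, p.derivative.evalEval z (conj z) ≠ 0)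
    (hΩ : IsBoundedComponent Γ Ω) :
    ∃ (U : Set ℂ) (S F H : ℂ → ℂ), IsOpen U ∧ IsPreconnected U ∧ Γ.Nonempty ∧ Γ ⊆ U ∧ IsOpen Ω ∧
      Ω.Nonempty ∧ IsPreconnected Ω ∧ closure Ω = Ω ∪ Γ ∧ IsPreconnected (closure Ω)ᶜ ∧
      (U ∩ Ω).Nonempty ∧ (U ∩ (closure Ω)ᶜ).Nonempty ∧
      AnalyticOnNhd ℂ S U ∧ (∀ z ∈ U, p.evalEval z (S z) = 0) ∧
      AnalyticOnNhd ℂ F ((closure Ω)ᶜ ∪ U) ∧ AnalyticOnNhd ℂ H (Ω ∪ U) ∧
      (∀ z ∈ U, F z - H z = S z) ∧
      (∀ z ∈ (closure Ω)ᶜ, F z = cauchyTransform Ω z) ∧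
      (∀ Fθ Hθ : ℂ → ℂ, AnalyticOnNhd ℂ Fθ ((closure Ω)ᶜ ∪ U) → AnalyticOnNhd ℂ Hθ (Ω ∪ U) →
        (∀ z ∈ U, (Fθ z - Hθ z) * p.derivative.evalEval z (S z) = 1) →
        Tendsto (fun z => z * Fθ z) (Bornology.cobounded ℂ) (𝓝 0) → False) := by
  have hPs : ContDiff ℝ 1 P := contDiff_real hP
  have hd : ∀ g ∈ Γ, fderiv ℝ P g ≠ 0 := by
    intro g hg h0
    apply hns g hg
    rw [← dbarL_real hP g, h0]
    simp
  have hLS : LocalSides P Γ := localSides_of_component hPs hΓ.isClosed hcomp hd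
  obtain ⟨σ, hσ, hsign⟩ := hLS.exists_sign hΩ
  have hσ2 : σ * σ = 1 := by rcases hσ with rfl | rfl <;> norm_num
  have hσ0 : σ ≠ 0 := by rcases hσ with rfl | rfl <;> norm_num
  have hcl := hLS.closure_eq hΩ
  obtain ⟨hEconn, hEcl⟩ := hLS.exterior hΩ
  have hΩo : IsOpen Ω := by
    obtain ⟨-, x, -, rfl⟩ := hΩ
    exact hLS.isOpen_comp x
  have hΩne : Ω.Nonempty := by
    obtain ⟨-, x, hx, rfl⟩ := hΩ
    exact ⟨x, mem_connectedComponentIn hx⟩
  have hΩconn : IsPreconnected Ω := by
    obtain ⟨-, x, hx, rfl⟩ := hΩ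
    exact isPreconnected_connectedComponentIn
  have hΩΓ : ∀ z ∈ Ω, z ∉ Γ := by
    obtain ⟨-, x, hx, rfl⟩ := hΩ
    intro z hz
    exact connectedComponentIn_subset Γᶜ x hz
  have hΩc : IsCompact (closure Ω) := hΩ.1.isCompact_closure
  -- the defining function
  set Q : ℂ → ℝ := fun z => σ * P z with hQ
  have hQs : ContDiff ℝ 1 Q := contDiff_const.mul hPs
  have hdq : ∀ z, dq Q z = σ * p.derivative.evalEval z (conj z) := by
    intro z
    have h1 : fderiv ℝ Q z = σ • fderiv ℝ P z := by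
      rw [hQ]
      exact fderiv_const_mul (hPs.differentiable one_ne_zero z) σ
    unfold dq
    rw [h1, ContinuousLinearMap.comp_smul, dbarL_real_smul, dbarL_real hP]
  -- the Schwarz function
  obtain ⟨V₀, S, hV₀, hΓV₀, hSan, hSp, hSconj⟩ := exists_schwarz hP hLS.zero
    (fun g hg => frequently_zero hPs (hLS.zero g hg) (hd g hg)) hns
  -- shrink the neighbourhood
  set A : Set ℂ := {z | ∀ᶠ y in 𝓝 z, (σ * P y < 0 → y ∈ Ω) ∧ (0 < σ * P y → y ∉ Ω) ∧
    (P y = 0 → y ∈ Γ)} with hA
  have hAo : IsOpen A := isOpen_setOfPred_eventually_nhds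
  have hΓA : Γ ⊆ A := fun g hg => hsign g hg
  have hScont : ContinuousOn S V₀ := fun z hz => (hSan z hz).continuousAt.continuousWithinAt
  have hddc : ContinuousOn (fun z => dd p z (conj z) (S z)) V₀ :=
    continuousOn_dd p Complex.continuous_conj.continuousOn hScont
  have hBo : IsOpen (V₀ ∩ (fun z => dd p z (conj z) (S z)) ⁻¹' {0}ᶜ) :=
    hddc.isOpen_inter_preimage hV₀ isOpen_compl_singleton
  set V : Set ℂ := A ∩ (V₀ ∩ (fun z => dd p z (conj z) (S z)) ⁻¹' {0}ᶜ) with hV
  have hVo : IsOpen V := hAo.inter hBo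
  have hΓV : Γ ⊆ V := by
    intro g hg
    refine ⟨hΓA hg, hΓV₀ hg, ?_⟩
    show dd p g (conj g) (S g) ≠ 0
    rw [hSconj g hg, dd_self]
    exact hns g hg
  obtain ⟨N, hNc, hΓN, hNV⟩ := exists_compact_between hΓ hVo hΓV
  have hNsign : ∀ z ∈ N, (σ * P z < 0 → z ∈ Ω) ∧ (0 < σ * P z → z ∉ Ω) ∧ (P z = 0 → z ∈ Γ) :=
    fun z hz => (hNV hz).1.self_of_nhds
  have hN0 : ∀ z ∈ N, Q z = 0 → z ∈ Γ := by
    intro z hz h0
    exact (hNsign z hz).2.2 ((mul_eq_zero.mp h0).resolve_left hσ0)
  obtain ⟨ε, hε, hεN⟩ := exists_eps hNc hQs.continuous isOpen_interior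
    (fun z hz h0 => hΓN (hN0 z hz h0))
  -- the bound
  have hddN : ContinuousOn (fun z => (dd p z (conj z) (S z))⁻¹) N := by
    refine ContinuousOn.inv₀ (hddc.mono fun z hz => (hNV hz).2.1) ?_
    intro z hz
    exact (hNV hz).2.2
  obtain ⟨C, hC⟩ := hNc.exists_bound_of_continuousOn hddN
  have hSC : SCollar Γ Ω N Q ε V S |C| :=
    { cpt := hNc
      openΩ := hΩo
      cptΩ := hΩc
      cl := hcl
      disj := hΩΓ
      neg := fun z hz => (hNsign z hz).1
      pos := fun z hz => (hNsign z hz).2.1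
      zero := hN0
      sub := hΓN.trans interior_subset
      zeroΓ := fun z hz => by
        show σ * P z = 0
        rw [hLS.zero z hz, mul_zero]
      eps := hε
      inner := hεN
      smooth := hQs
      openV := hVo
      subV := hNV
      an := fun z hz => hSan z hz.2.1
      Cnonneg := abs_nonneg _
      bound := by
        intro z hz
        have h1 := evalEval_sub_evalEval p z (conj z) (S z)
        rw [hP, hSp z (hNV hz).2.1, sub_zero] at h1
        have h2 : dd p z (conj z) (S z) ≠ 0 := (hNV hz).2.2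
        have h3 : conj z - S z = (dd p z (conj z) (S z))⁻¹ * (P z : ℂ) := by
          rw [h1, ← mul_assoc, inv_mul_cancel₀ h2, one_mul]
        have h4 : |Q z| = |P z| := by
          show |σ * P z| = |P z|
          rcases hσ with rfl | rfl <;> simp
        rw [h3, norm_mul, Complex.norm_real, Real.norm_eq_abs, h4]
        exact mul_le_mul_of_nonneg_right ((hC z hz).trans (le_abs_self C)) (abs_nonneg _) }
  -- the constants
  have hb : 0 < ε / 4 := by positivity
  have hab : ε / 4 < ε / 2 := by linarith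
  have hc : ε / 2 + ε / 4 ≤ ε := by linarith
  have ha : 0 < ε / 2 := by positivity
  have hc1 : |(-(ε / 2))| + ε / 4 ≤ ε := by rw [abs_neg, abs_of_pos ha]; exact hc
  have hc2 : |ε / 2| + ε / 4 ≤ ε := by rw [abs_of_pos ha]; exact hc
  obtain ⟨g₀, hg₀⟩ := hLS.nonempty
  set W : Set ℂ := interior N ∩ {z | |Q z| < ε / 2 - ε / 4} with hW
  have hWo : IsOpen W :=
    isOpen_interior.inter (isOpen_lt (continuous_abs.comp hQs.continuous) continuous_const)
  have hΓW : Γ ⊆ W := by
    intro g hg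
    refine ⟨hΓN hg, ?_⟩
    show |σ * P g| < ε / 2 - ε / 4
    rw [hLS.zero g hg, mul_zero, abs_zero]
    linarith
  set U : Set ℂ := connectedComponentIn W g₀ with hU
  have hUW : U ⊆ W := connectedComponentIn_subset _ _
  have hUo : IsOpen U := hWo.connectedComponentIn
  have hΓU : Γ ⊆ U := hLS.conn.subset_connectedComponentIn hg₀ hΓW
  have hUN : ∀ z ∈ U, z ∈ N := fun z hz => interior_subset (hUW hz).1
  have hUQ : ∀ z ∈ U, |Q z| < ε / 2 - ε / 4 := fun z hz => (hUW hz).2
  refine ⟨U, S, cauchy (SCollar.vv Ω N Q S (-(ε / 2)) (ε / 4)),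
    cauchy (SCollar.vv Ω N Q S (ε / 2) (ε / 4)), hUo, isPreconnected_connectedComponentIn,
    ⟨g₀, hg₀⟩, hΓU, hΩo, hΩne, hΩconn, hcl, hEconn, ?_, ?_, ?_, ?_, ?_, ?_, ?_, ?_, ?_⟩
  · have h1 : g₀ ∈ closure Ω := by
      rw [hcl]
      exact Or.inr hg₀
    exact mem_closure_iff.mp h1 U hUo (hΓU hg₀)
  · exact mem_closure_iff.mp (hEcl g₀ hg₀) U hUo (hΓU hg₀)
  · intro z hz
    exact hSC.an z (hNV (hUN z hz))
  · intro z hz
    exact hSp z (hNV (hUN z hz)).2.1
  · refine (hSC.analyticOnNhd_cauchy_vv hb hc1).mono ?_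
    rintro z (hz | hz) ⟨h1, h2⟩
    · have h3 := (abs_le.mp h2).2
      exact hz (subset_closure (hSC.neg z h1 (by linarith)))
    · have h3 := (abs_le.mp h2).2
      have h4 := (abs_lt.mp (hUQ z hz)).1
      linarith
  · refine (hSC.analyticOnNhd_cauchy_vv hb hc2).mono ?_
    rintro z (hz | hz) ⟨h1, h2⟩
    · have h3 := (abs_le.mp h2).1
      exact hSC.pos z h1 (by linarith) hz
    · have h3 := (abs_le.mp h2).1
      have h4 := (abs_lt.mp (hUQ z hz)).2
      linarith
  · intro z hz
    exact hSC.sub_eq hb hab hc (hUN z hz) (hUQ z hz)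
  · intro z hz
    exact hSC.eq_cauchyTransform hb hab hc hz
  · -- the final contradiction
    intro Fθ Hθ hFan hHan hFH hlim
    have hne : ∀ z ∈ U, p.derivative.evalEval z (S z) ≠ 0 := by
      intro z hz h0
      have := hFH z hz
      rw [h0, mul_zero] at this
      exact zero_ne_one this
    have hSU : ContinuousOn S U := fun z hz =>
      (hSC.an z (hNV (hUN z hz))).continuousAt.continuousWithinAt
    set r : ℂ → ℂ := fun z => p.derivative.evalEval z (conj z) / p.derivative.evalEval z (S z)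
      with hr
    have hrc : ContinuousOn r U := by
      refine ContinuousOn.div ?_ ?_ hne
      · exact ((continuous_evalEval p.derivative).comp
          (continuous_id.prodMk Complex.continuous_conj)).continuousOn
      · exact (continuous_evalEval p.derivative).comp_continuousOn
          (continuousOn_id.prodMk hSU)
    have hOo : IsOpen (U ∩ r ⁻¹' {w | 1 / 2 < w.re}) :=
      hrc.isOpen_inter_preimage hUo (isOpen_lt continuous_const Complex.continuous_re)
    obtain ⟨ε₁, hε₁, hεO⟩ := exists_eps hNc hQs.continuous hOo (by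
      intro z hz h0
      have hzΓ := hN0 z hz h0
      refine ⟨hΓU hzΓ, ?_⟩
      show 1 / 2 < (p.derivative.evalEval z (conj z) / p.derivative.evalEval z (S z)).re
      rw [hSconj z hzΓ, div_self (hns z hzΓ)]
      norm_num)
    set e : ℝ := min ε₁ ε with he
    have hepos : 0 < e := lt_min hε₁ hε
    have hSC2 : SCollar Γ Ω N Q e V S |C| :=
      { hSC with
        eps := hepos
        inner := fun z hz h1 => hSC.inner z hz (h1.trans (min_le_right _ _)) }
    have hce : |(0 : ℝ)| + e ≤ e := by rw [abs_zero, zero_add]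
    have hzoneU : ∀ z, z ∈ N → |Q z| ≤ e → z ∈ U ∧ 1 / 2 < (r z).re := fun z hz h1 =>
      hεO z hz (h1.trans (min_le_left _ _))
    set κ : ℂ → ℂ := SCollar.kap Ω N Q 0 e with hκ
    have hκC : ContDiff ℝ 1 κ := hSC2.contDiff_kap hepos hce
    set G : ℂ → ℂ := fun z => Fθ z * κ z + Hθ z * (1 - κ z) with hG
    have hfar : ∀ z, ¬ (z ∈ N ∧ |Q z| ≤ e) → (z ∈ Ω ∧ G =ᶠ[𝓝 z] Hθ) ∨
        (z ∉ closure Ω ∧ G =ᶠ[𝓝 z] Fθ) := by
      intro z hz
      rcases hSC2.kap_far hepos hce hz with ⟨h1, h2⟩ | ⟨h1, h2⟩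
      · left
        refine ⟨h1, ?_⟩
        filter_upwards [h2] with y hy
        rw [hG]
        simp only
        rw [hκ, hy]
        ring
      · right
        refine ⟨h1, ?_⟩
        filter_upwards [h2] with y hy
        rw [hG]
        simp only
        rw [hκ, hy]
        ring
    have hFz : ∀ z, z ∈ N → |Q z| ≤ e → AnalyticAt ℂ Fθ z ∧ AnalyticAt ℂ Hθ z := fun z hz h1 =>
      ⟨hFan z (Or.inr (hzoneU z hz h1).1), hHan z (Or.inr (hzoneU z hz h1).1)⟩
    have hGC : ContDiff ℝ 1 G := by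
      rw [contDiff_iff_contDiffAt]
      intro z
      by_cases hz : z ∈ N ∧ |Q z| ≤ e
      · obtain ⟨h1, h2⟩ := hFz z hz.1 hz.2
        have h3 : ContDiffAt ℝ 1 Fθ z := (h1.contDiffAt (n := 1)).restrict_scalars ℝ
        have h4 : ContDiffAt ℝ 1 Hθ z := (h2.contDiffAt (n := 1)).restrict_scalars ℝ
        exact (h3.mul hκC.contDiffAt).add (h4.mul (contDiffAt_const.sub hκC.contDiffAt))
      · rcases hfar z hz with ⟨h1, h2⟩ | ⟨h1, h2⟩
        · have h3 := hHan z (Or.inl h1)
          have h4 : ContDiffAt ℝ 1 Hθ z := (h3.contDiffAt (n := 1)).restrict_scalars ℝ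
          exact h4.congr_of_eventuallyEq h2
        · have h3 := hFan z (Or.inl h1)
          have h4 : ContDiffAt ℝ 1 Fθ z := (h3.contDiffAt (n := 1)).restrict_scalars ℝ
          exact h4.congr_of_eventuallyEq h2
    have hdG0 : ∀ z, ¬ (z ∈ N ∧ |Q z| ≤ e) → dbar G z = 0 := by
      intro z hz
      rcases hfar z hz with ⟨h1, h2⟩ | ⟨h1, h2⟩
      · rw [dbar_congr h2, dbar_of_differentiableAt (hHan z (Or.inl h1)).differentiableAt]
      · rw [dbar_congr h2, dbar_of_differentiableAt (hFan z (Or.inl h1)).differentiableAt]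
    have hdG : ∀ z, z ∈ N → |Q z| ≤ e →
        dbar G z = ((tent ((Q z - 0) / e) / e * σ : ℝ) : ℂ) * r z := by
      intro z hz hq
      obtain ⟨h1, h2⟩ := hFz z hz hq
      have h3 : DifferentiableAt ℝ Fθ z := h1.differentiableAt.restrictScalars ℝ
      have h4 : DifferentiableAt ℝ Hθ z := h2.differentiableAt.restrictScalars ℝ
      have h5 : DifferentiableAt ℝ κ z := hκC.differentiable one_ne_zero z
      have h6 : DifferentiableAt ℝ (fun z => 1 - κ z) z := (differentiableAt_const _).sub h5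
      have h7 : DifferentiableAt ℝ (fun z => Fθ z * κ z) z := h3.mul h5
      have h8 : DifferentiableAt ℝ (fun z => Hθ z * (1 - κ z)) z := h4.mul h6
      have h9 : dbar κ z = ((tent ((Q z - 0) / e) / e : ℝ) : ℂ) * dq Q z :=
        hSC2.dbar_kap_of_mem hepos hce hz
      rw [hG, dbar_add h7 h8, dbar_mul h3 h5, dbar_mul h4 h6,
        dbar_sub (differentiableAt_const _) h5, dbar_const,
        dbar_of_differentiableAt h1.differentiableAt, dbar_of_differentiableAt h2.differentiableAt,
        h9, hdq, hr]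
      have h10 := hFH z (hzoneU z hz hq).1
      have h11 := hne z (hzoneU z hz hq).1
      have h12 : Fθ z - Hθ z = (p.derivative.evalEval z (S z))⁻¹ :=
        eq_inv_of_mul_eq_one_left h10
      have h13 : Fθ z = Hθ z + (p.derivative.evalEval z (S z))⁻¹ := by
        rw [← h12]
        ring
      simp only
      rw [h13, div_eq_mul_inv (p.derivative.evalEval z (conj z))]
      push_cast
      ring
    have hGcs : HasCompactSupport (dbar G) := by
      refine HasCompactSupport.of_support_subset_isCompact hNc ?_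
      intro z hz
      by_contra h
      exact hz (hdG0 z fun h1 => h h1.1)
    have hGlim : Tendsto (fun z => z * G z) (Bornology.cobounded ℂ) (𝓝 0) := by
      refine hlim.congr' ?_
      have hbd : Bornology.IsBounded (closure Ω ∪ N) := hΩc.isBounded.union hNc.isBounded
      filter_upwards [Bornology.isBounded_def.mp hbd] with z hz
      rw [mem_compl_iff, mem_union, not_or] at hz
      rcases hfar z (fun h1 => hz.2 h1.1) with ⟨h1, h2⟩ | ⟨h1, h2⟩
      · exact absurd (subset_closure h1) hz.1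
      · rw [h2.self_of_nhds]
    have hint := integral_dbar_eq_zero_of_tendsto hGC hGcs hGlim
    -- positivity
    set w : ℂ → ℝ := fun z => σ * (dbar G z).re with hw
    have hdGc : Continuous (dbar G) := continuous_dbar hGC
    have hwc : Continuous w := continuous_const.mul (Complex.continuous_re.comp hdGc)
    have hwcs : HasCompactSupport w := by
      refine HasCompactSupport.of_support_subset_isCompact hNc ?_
      intro z hz
      by_contra h
      apply hz
      show σ * (dbar G z).re = 0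
      rw [hdG0 z fun h1 => h h1.1]
      simp
    have hwval : ∀ z, z ∈ N → |Q z| ≤ e → w z = tent ((Q z - 0) / e) / e * (r z).re := by
      intro z hz hq
      show σ * (dbar G z).re = _
      rw [hdG z hz hq, Complex.re_ofReal_mul]
      linear_combination (tent ((Q z - 0) / e) / e * (r z).re) * hσ2
    have hw0 : ∀ z, 0 ≤ w z := by
      intro z
      by_cases hz : z ∈ N ∧ |Q z| ≤ e
      · rw [hwval z hz.1 hz.2]
        have h1 := (hzoneU z hz.1 hz.2).2
        exact mul_nonneg (div_nonneg (tent_nonneg _) hepos.le) (by linarith)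
      · show 0 ≤ σ * (dbar G z).re
        rw [hdG0 z hz]
        simp
    have hwg : w g₀ ≠ 0 := by
      have h0 : Q g₀ = 0 := hSC.zeroΓ g₀ hg₀
      have h1 : g₀ ∈ N := hSC.sub hg₀
      have h2 : |Q g₀| ≤ e := by rw [h0, abs_zero]; exact hepos.le
      rw [hwval g₀ h1 h2, h0]
      have h3 := (hzoneU g₀ h1 h2).2
      rw [sub_zero, zero_div, tent_zero]
      have h4 : 0 < (r g₀).re := by linarith
      positivity
    have hwpos : 0 < ∫ z, w z :=
      hwc.integral_pos_of_hasCompactSupport_nonneg_nonzero hwcs hw0 hwg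
    have hwint : ∫ z, w z = σ * (∫ z, dbar G z).re := by
      have hi : Integrable (dbar G) := hdGc.integrable_of_hasCompactSupport hGcs
      have h1 : ∫ z, (dbar G z).re = (∫ z, dbar G z).re := by
        have := integral_re hi
        simpa using this
      rw [hw, integral_const_mul, h1]
    rw [hwint, hint] at hwpos
    simp at hwpos

end Pool.Agent.Helper43.Oval
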