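import Mathlib

/-!
# Bivariate complex polynomials as functions of `z` and `conj z`
-/

open Polynomial Filter Topology ComplexConjugate

namespace Pool.Agent.Helper43.Oval

/-- The operator `∂/∂(conj z)` on real differentials. -/
noncomputable def dbarL (L : ℂ →L[ℝ] ℂ) : ℂ := (L 1 + Complex.I * L Complex.I) / 2

theorem evalEval_eq_sum (p : Polynomial (Polynomial ℂ)) (z w : ℂ) :
    p.evalEval z w = ∑ i ∈ Finset.range (p.natDegree + 1), (p.coeff i).eval z * w ^ i := by
  unfold Polynomial.evalEval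
  rw [Polynomial.eval_eq_sum_range (p := p), Polynomial.eval_finsetSum]
  refine Finset.sum_congr rfl fun i _ => ?_
  simp

theorem contDiff_evalEval (p : Polynomial (Polynomial ℂ)) {n : WithTop ℕ∞} :
    ContDiff ℂ n (fun v : ℂ × ℂ => p.evalEval v.1 v.2) := by
  simp only [evalEval_eq_sum]
  refine ContDiff.sum fun i _ => ?_
  refine ContDiff.mul ?_ (contDiff_snd.pow i)
  have h : ContDiff ℂ n (fun x : ℂ => (p.coeff i).eval x) := by
    simpa [Polynomial.aeval_def] using Polynomial.contDiff_aeval (p.coeff i) (𝕜 := ℂ) n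
  exact h.comp contDiff_fst

theorem hasDerivAt_evalEval_snd (p : Polynomial (Polynomial ℂ)) (z w : ℂ) :
    HasDerivAt (fun w => p.evalEval z w) (p.derivative.evalEval z w) w := by
  have h : ∀ (q : Polynomial (Polynomial ℂ)) (w : ℂ),
      q.evalEval z w = (q.map (Polynomial.evalRingHom z)).eval w := by
    intro q w
    rw [Polynomial.map_evalRingHom_eval]
  have h1 : (fun w => p.evalEval z w) = fun w => (p.map (Polynomial.evalRingHom z)).eval w :=
    funext fun w => h p w
  rw [h1, h, ← Polynomial.derivative_map]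
  exact Polynomial.hasDerivAt _ w

theorem fderiv_evalEval_snd (p : Polynomial (Polynomial ℂ)) (z w k : ℂ) :
    fderiv ℂ (fun v : ℂ × ℂ => p.evalEval v.1 v.2) (z, w) (0, k) =
      k * p.derivative.evalEval z w := by
  have h1 : HasFDerivAt (fun v : ℂ × ℂ => p.evalEval v.1 v.2)
      (fderiv ℂ (fun v : ℂ × ℂ => p.evalEval v.1 v.2) (z, w)) (z, w) :=
    ((contDiff_evalEval p (n := 1)).differentiable one_ne_zero (z, w)).hasFDerivAt
  have h2 : HasDerivAt (fun w : ℂ => (z, w)) ((0 : ℂ), (1 : ℂ)) w :=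
    (hasDerivAt_const w z).prodMk (hasDerivAt_id w)
  have h3 := h1.comp_hasDerivAt w h2
  have h4 := h3.unique (hasDerivAt_evalEval_snd p z w)
  have h5 : ((0 : ℂ), k) = k • ((0 : ℂ), (1 : ℂ)) := by simp
  rw [h5, map_smul, h4, smul_eq_mul]

/-- A real valued function given by a polynomial in `z` and `conj z` is smooth. -/
theorem contDiff_real {p : Polynomial (Polynomial ℂ)} {P : ℂ → ℝ}
    (hP : ∀ z, p.evalEval z (conj z) = (P z : ℂ)) {n : WithTop ℕ∞} : ContDiff ℝ n P := by
  have h1 : P = fun z => (p.evalEval z (conj z)).re := by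
    funext z
    rw [hP, Complex.ofReal_re]
  rw [h1]
  have h2 : ContDiff ℝ n (fun v : ℂ × ℂ => p.evalEval v.1 v.2) :=
    (contDiff_evalEval p).restrict_scalars ℝ
  have h3 : ContDiff ℝ n (fun z : ℂ => (z, conj z)) :=
    contDiff_id.prodMk Complex.conjCLE.contDiff
  exact Complex.reCLM.contDiff.comp (h2.comp h3)

theorem dbarL_real {p : Polynomial (Polynomial ℂ)} {P : ℂ → ℝ}
    (hP : ∀ z, p.evalEval z (conj z) = (P z : ℂ)) (z : ℂ) :
    dbarL (Complex.ofRealCLM ∘L fderiv ℝ P z) = p.derivative.evalEval z (conj z) := by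
  have h1 : HasFDerivAt (fun z => (P z : ℂ)) (Complex.ofRealCLM ∘L fderiv ℝ P z) z :=
    Complex.ofRealCLM.hasFDerivAt.comp z
      (((contDiff_real hP (n := 1)).differentiable one_ne_zero z).hasFDerivAt)
  have h2 : HasFDerivAt (fun v : ℂ × ℂ => p.evalEval v.1 v.2)
      ((fderiv ℂ (fun v : ℂ × ℂ => p.evalEval v.1 v.2) (z, conj z)).restrictScalars ℝ)
      (z, conj z) :=
    (((contDiff_evalEval p (n := 1)).differentiable one_ne_zero
      (z, conj z)).hasFDerivAt).restrictScalars ℝ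
  have h3 : HasFDerivAt (fun z : ℂ => (z, conj z))
      ((ContinuousLinearMap.id ℝ ℂ).prod (Complex.conjCLE : ℂ →L[ℝ] ℂ)) z :=
    (hasFDerivAt_id z).prodMk (Complex.conjCLE : ℂ →L[ℝ] ℂ).hasFDerivAt
  have h4 := HasFDerivAt.comp z h2 h3
  have h5 : ((fun v : ℂ × ℂ => p.evalEval v.1 v.2) ∘ fun z : ℂ => (z, conj z)) =
      fun z => (P z : ℂ) := by
    funext z
    exact hP z
  rw [h5] at h4
  rw [h1.unique h4]
  set L := fderiv ℂ (fun v : ℂ × ℂ => p.evalEval v.1 v.2) (z, conj z) with hL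
  have h6 : ∀ h : ℂ, L (h, conj h) = h * L (1, 0) + conj h * L (0, 1) := by
    intro h
    have : ((h, conj h) : ℂ × ℂ) = h • ((1 : ℂ), (0 : ℂ)) + (conj h) • ((0 : ℂ), (1 : ℂ)) := by
      simp
    rw [this, map_add, map_smul, map_smul, smul_eq_mul, smul_eq_mul]
  have h7 : L (0, 1) = p.derivative.evalEval z (conj z) := by
    rw [hL, fderiv_evalEval_snd]
    simp
  unfold dbarL
  simp only [ContinuousLinearMap.comp_apply, ContinuousLinearMap.prod_apply,
    ContinuousLinearMap.coe_restrictScalars', ContinuousLinearMap.id_apply]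
  have h8 : ∀ h : ℂ, (Complex.conjCLE : ℂ →L[ℝ] ℂ) h = conj h := fun h => rfl
  rw [h8, h8, h6, h6, h7]
  simp only [map_one, Complex.conj_I]
  ring_nf
  rw [Complex.I_sq]
  ring

end Pool.Agent.Helper43.Oval
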