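import Pool.Agent.Helper43.Oval.Dbar

/-!
# The Cauchy–Pompeiu formula for compactly supported functions
-/

open Filter Topology Set MeasureTheory

namespace Pool.Agent.Helper43.Oval

/-- `e^{iθ}` -/
noncomputable def ee (θ : ℝ) : ℂ := Real.cos θ + Real.sin θ * Complex.I

theorem continuous_ee : Continuous ee := by
  unfold ee
  fun_prop

theorem norm_ee (θ : ℝ) : ‖ee θ‖ = 1 := by
  unfold ee
  rw [Complex.ofReal_cos, Complex.ofReal_sin, ← Complex.exp_mul_I, Complex.norm_exp_ofReal_mul_I]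

theorem ee_ne_zero (θ : ℝ) : ee θ ≠ 0 := by
  intro h
  have := norm_ee θ
  rw [h, norm_zero] at this
  exact zero_ne_one this

theorem hasDerivAt_ee (θ : ℝ) : HasDerivAt ee (Complex.I * ee θ) θ := by
  have h1 : HasDerivAt (fun θ : ℝ => ((Real.cos θ : ℝ) : ℂ)) ((-Real.sin θ : ℝ) : ℂ) θ :=
    (Real.hasDerivAt_cos θ).ofReal_comp
  have h2 : HasDerivAt (fun θ : ℝ => ((Real.sin θ : ℝ) : ℂ)) ((Real.cos θ : ℝ) : ℂ) θ :=
    (Real.hasDerivAt_sin θ).ofReal_comp
  have h3 := h1.add (h2.mul_const Complex.I)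
  have h4 : ((-Real.sin θ : ℝ) : ℂ) + ((Real.cos θ : ℝ) : ℂ) * Complex.I = Complex.I * ee θ := by
    unfold ee
    push_cast
    ring_nf
    rw [Complex.I_sq]
    ring
  rw [h4] at h3
  exact h3

theorem ee_eq_re_im (θ : ℝ) (L : ℂ →L[ℝ] ℂ) :
    L (ee θ) + Complex.I * L (Complex.I * ee θ) = 2 * dbarL L * (ee θ)⁻¹ := by
  have h1 : ee θ = Real.cos θ • (1 : ℂ) + Real.sin θ • Complex.I := by
    unfold ee
    simp
  have h2 : Complex.I * ee θ = Real.cos θ • Complex.I + (-Real.sin θ) • (1 : ℂ) := by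
    unfold ee
    simp only [Complex.real_smul]
    push_cast
    ring_nf
    rw [Complex.I_sq]
    ring
  have h3 : (ee θ)⁻¹ = Real.cos θ - Real.sin θ * Complex.I := by
    refine inv_eq_of_mul_eq_one_right ?_
    unfold ee
    have := Real.sin_sq_add_cos_sq θ
    have h5 : ((Real.sin θ : ℝ) : ℂ) ^ 2 + ((Real.cos θ : ℝ) : ℂ) ^ 2 = 1 := by
      exact_mod_cast this
    linear_combination h5 - ((Real.sin θ : ℝ) : ℂ) ^ 2 * Complex.I_sq
  have e1 : L (ee θ) = Real.cos θ * L 1 + Real.sin θ * L Complex.I := by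
    rw [h1, map_add, map_smul, map_smul, Complex.real_smul, Complex.real_smul]
  have e2 : L (Complex.I * ee θ) = Real.cos θ * L Complex.I - Real.sin θ * L 1 := by
    rw [h2, map_add, map_smul, map_smul, Complex.real_smul, Complex.real_smul]
    push_cast
    ring
  rw [e1, e2, h3]
  unfold dbarL
  linear_combination (((Real.sin θ : ℝ) : ℂ) * L Complex.I) * Complex.I_sq

variable {f : ℂ → ℂ}

theorem exists_radius (hc : HasCompactSupport f) (z : ℂ) :
    ∃ R > 0, ∀ (r θ : ℝ), R < r → z + r * ee θ ∉ tsupport f := by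
  obtain ⟨R, hR⟩ := hc.isBounded.subset_closedBall z
  refine ⟨max R 1, by positivity, fun r θ hr hmem => ?_⟩
  have h1 := hR hmem
  rw [Metric.mem_closedBall, dist_eq_norm, add_sub_cancel_left, norm_mul, norm_ee, mul_one,
    Complex.norm_real, Real.norm_eq_abs] at h1
  have h2 : r ≤ |r| := le_abs_self r
  have h3 : R ≤ max R 1 := le_max_left _ _
  linarith

theorem fderiv_eq_zero_of_notMem {w : ℂ} (hw : w ∉ tsupport f) : fderiv ℝ f w = 0 := by
  have h1 : f =ᶠ[𝓝 w] fun _ => 0 := notMem_tsupport_iff_eventuallyEq.mp hw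
  rw [h1.fderiv_eq]
  simp

theorem continuous_dir (hf : ContDiff ℝ 1 f) (z c : ℂ) :
    Continuous fun p : ℝ × ℝ => fderiv ℝ f (z + p.1 * ee p.2) (c * ee p.2) := by
  have h1 : Continuous (fderiv ℝ f) := hf.continuous_fderiv one_ne_zero
  have h2 : Continuous fun p : ℝ × ℝ => z + (p.1 : ℂ) * ee p.2 := by
    have := continuous_ee
    fun_prop
  have h3 : Continuous fun p : ℝ × ℝ => c * ee p.2 := by
    have := continuous_ee
    fun_prop
  exact (h1.comp h2).clm_apply h3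

theorem integrableOn_dir (hf : ContDiff ℝ 1 f) (hc : HasCompactSupport f) (z c : ℂ) :
    IntegrableOn (fun p : ℝ × ℝ => fderiv ℝ f (z + p.1 * ee p.2) (c * ee p.2))
      (Ioi 0 ×ˢ Ioo (-Real.pi) Real.pi) := by
  obtain ⟨R, hR0, hR⟩ := exists_radius hc z
  have h1 : IntegrableOn (fun p : ℝ × ℝ => fderiv ℝ f (z + p.1 * ee p.2) (c * ee p.2))
      (Icc 0 R ×ˢ Icc (-Real.pi) Real.pi) :=
    (continuous_dir hf z c).continuousOn.integrableOn_compact (isCompact_Icc.prod isCompact_Icc)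
  refine h1.of_forall_sdiff_eq_zero (measurableSet_Ioi.prod measurableSet_Ioo) ?_
  rintro ⟨r, θ⟩ ⟨⟨hr, hθ⟩, hnot⟩
  have hr' : R < r := by
    by_contra h
    apply hnot
    refine ⟨⟨le_of_lt hr, not_lt.mp h⟩, ⟨hθ.1.le, hθ.2.le⟩⟩
  simp only
  rw [fderiv_eq_zero_of_notMem (hR r θ hr')]
  rfl

theorem integral_radial (hf : ContDiff ℝ 1 f) (hc : HasCompactSupport f) (z : ℂ) (θ : ℝ) :
    ∫ r in Ioi (0 : ℝ), fderiv ℝ f (z + r * ee θ) (ee θ) = - f z := by
  obtain ⟨R, hR0, hR⟩ := exists_radius hc z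
  have hder : ∀ r : ℝ, HasDerivAt (fun r : ℝ => f (z + r * ee θ))
      (fderiv ℝ f (z + r * ee θ) (ee θ)) r := by
    intro r
    have h1 : HasDerivAt (fun r : ℝ => z + (r : ℂ) * ee θ) (ee θ) r := by
      have := ((Complex.ofRealCLM.hasDerivAt (x := r)).mul_const (ee θ)).const_add z
      simpa using this
    exact ((hf.differentiable one_ne_zero) _).hasFDerivAt.comp_hasDerivAt r h1
  have hcont : Continuous fun r : ℝ => fderiv ℝ f (z + r * ee θ) (ee θ) := by
    have h1 : Continuous (fderiv ℝ f) := hf.continuous_fderiv one_ne_zero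
    have h2 : Continuous fun r : ℝ => z + (r : ℂ) * ee θ := by fun_prop
    exact (h1.comp h2).clm_apply continuous_const
  have hint : IntegrableOn (fun r : ℝ => fderiv ℝ f (z + r * ee θ) (ee θ)) (Ioi 0) := by
    have h1 : IntegrableOn (fun r : ℝ => fderiv ℝ f (z + r * ee θ) (ee θ)) (Icc 0 R) :=
      hcont.continuousOn.integrableOn_compact isCompact_Icc
    refine h1.of_forall_sdiff_eq_zero measurableSet_Ioi ?_
    rintro r ⟨hr, hnot⟩
    have hr' : R < r := by
      by_contra h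
      exact hnot ⟨le_of_lt hr, not_lt.mp h⟩
    rw [fderiv_eq_zero_of_notMem (hR r θ hr')]
    rfl
  have hlim : Tendsto (fun r : ℝ => f (z + r * ee θ)) atTop (𝓝 0) := by
    refine tendsto_const_nhds.congr' ?_
    filter_upwards [Ioi_mem_atTop R] with r hr
    exact (image_eq_zero_of_notMem_tsupport (hR r θ hr)).symm
  have := integral_Ioi_of_hasDerivAt_of_tendsto' (fun r _ => hder r) hint hlim
  rw [this]
  simp

theorem integral_angular (hf : ContDiff ℝ 1 f) (z : ℂ) {r : ℝ} (hr : 0 < r) :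
    ∫ θ in Ioo (-Real.pi) Real.pi, fderiv ℝ f (z + r * ee θ) (Complex.I * ee θ) = 0 := by
  have hder : ∀ θ : ℝ, HasDerivAt (fun θ : ℝ => (r : ℂ)⁻¹ * f (z + r * ee θ))
      (fderiv ℝ f (z + r * ee θ) (Complex.I * ee θ)) θ := by
    intro θ
    have h1 : HasDerivAt (fun θ : ℝ => z + (r : ℂ) * ee θ) ((r : ℂ) * (Complex.I * ee θ)) θ :=
      ((hasDerivAt_ee θ).const_mul (r : ℂ)).const_add z
    have h2 := ((hf.differentiable one_ne_zero) _).hasFDerivAt.comp_hasDerivAt θ h1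
    have h3 : fderiv ℝ f (z + r * ee θ) ((r : ℂ) * (Complex.I * ee θ)) =
        (r : ℂ) * fderiv ℝ f (z + r * ee θ) (Complex.I * ee θ) := by
      have h5 : (r : ℂ) * (Complex.I * ee θ) = r • (Complex.I * ee θ) := Complex.real_smul.symm
      rw [h5, map_smul, Complex.real_smul]
    have h4 := h2.const_mul ((r : ℂ)⁻¹)
    rw [h3, ← mul_assoc, inv_mul_cancel₀ (by exact_mod_cast hr.ne'), one_mul] at h4
    exact h4
  have hcont : Continuous fun θ : ℝ => fderiv ℝ f (z + r * ee θ) (Complex.I * ee θ) := by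
    have h1 : Continuous (fderiv ℝ f) := hf.continuous_fderiv one_ne_zero
    have := continuous_ee
    have h2 : Continuous fun θ : ℝ => z + (r : ℂ) * ee θ := by fun_prop
    exact (h1.comp h2).clm_apply (by fun_prop)
  rw [← integral_Ioc_eq_integral_Ioo, ← intervalIntegral.integral_of_le (by linarith [Real.pi_pos]),
    intervalIntegral.integral_eq_sub_of_hasDerivAt (fun θ _ => hder θ)
      (hcont.intervalIntegrable _ _)]
  have : ee (-Real.pi) = ee Real.pi := by
    unfold ee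
    simp
  rw [this, sub_self]

/-- **Cauchy–Pompeiu formula** for compactly supported continuously differentiable functions. -/
theorem pompeiu (hf : ContDiff ℝ 1 f) (hc : HasCompactSupport f) (z : ℂ) :
    f z = (1 / Real.pi : ℂ) * ∫ ζ, dbar f ζ / (z - ζ) := by
  have h1 : ∫ ζ, dbar f ζ / (z - ζ) = ∫ u, dbar f (z + u) / (-u) := by
    rw [← integral_add_left_eq_self (fun ζ => dbar f ζ / (z - ζ)) z]
    refine integral_congr_ae (Eventually.of_forall fun u => ?_)
    simp only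
    congr 1
    ring
  rw [h1, ← Complex.integral_comp_polarCoord_symm]
  have htar : polarCoord.target = Ioi (0 : ℝ) ×ˢ Ioo (-Real.pi) Real.pi := rfl
  rw [htar]
  have h2 : ∫ p in Ioi (0 : ℝ) ×ˢ Ioo (-Real.pi) Real.pi,
      p.1 • (dbar f (z + Complex.polarCoord.symm p) / (-Complex.polarCoord.symm p)) =
      ∫ p in Ioi (0 : ℝ) ×ˢ Ioo (-Real.pi) Real.pi,
        (-(1 / 2 : ℂ)) * (fderiv ℝ f (z + p.1 * ee p.2) (1 * ee p.2) +
          Complex.I * fderiv ℝ f (z + p.1 * ee p.2) (Complex.I * ee p.2)) := by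
    refine setIntegral_congr_fun (measurableSet_Ioi.prod measurableSet_Ioo) ?_
    rintro ⟨r, θ⟩ ⟨hr, hθ⟩
    have hr0 : (r : ℂ) ≠ 0 := by
      have : r ≠ 0 := ne_of_gt hr
      exact_mod_cast this
    have h3 : Complex.polarCoord.symm (r, θ) = r * ee θ := by
      rw [Complex.polarCoord_symm_apply]
      rfl
    simp only
    rw [h3, one_mul, ee_eq_re_im, Complex.real_smul]
    unfold dbar
    have := ee_ne_zero θ
    field_simp
  rw [h2, integral_const_mul, integral_add (integrableOn_dir hf hc z 1)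
    ((integrableOn_dir hf hc z Complex.I).const_mul _), integral_const_mul]
  have h3 : ∫ p in Ioi (0 : ℝ) ×ˢ Ioo (-Real.pi) Real.pi,
      fderiv ℝ f (z + p.1 * ee p.2) (1 * ee p.2) = -(2 * Real.pi) * f z := by
    have h4 := setIntegral_prod_swap (μ := (volume : Measure ℝ)) (ν := (volume : Measure ℝ))
      (Ioi (0 : ℝ)) (Ioo (-Real.pi) Real.pi)
      (fun p : ℝ × ℝ => fderiv ℝ f (z + p.1 * ee p.2) (1 * ee p.2))
    have h5 : IntegrableOn (fun p : ℝ × ℝ => fderiv ℝ f (z + p.1 * ee p.2) (1 * ee p.2))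
      (Ioi 0 ×ˢ Ioo (-Real.pi) Real.pi) ((volume : Measure ℝ).prod volume) :=
      integrableOn_dir hf hc z 1
    have h6 : IntegrableOn (fun p : ℝ × ℝ => fderiv ℝ f (z + p.swap.1 * ee p.swap.2)
      (1 * ee p.swap.2)) (Ioo (-Real.pi) Real.pi ×ˢ Ioi 0) ((volume : Measure ℝ).prod volume) := by
      unfold IntegrableOn at h5 ⊢
      rw [← Measure.prod_restrict] at h5 ⊢
      exact h5.swap
    have h7 : ∫ p in Ioi (0 : ℝ) ×ˢ Ioo (-Real.pi) Real.pi,
      fderiv ℝ f (z + p.1 * ee p.2) (1 * ee p.2) = ∫ p in Ioi (0 : ℝ) ×ˢ Ioo (-Real.pi) Real.pi,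
      fderiv ℝ f (z + p.1 * ee p.2) (1 * ee p.2) ∂((volume : Measure ℝ).prod volume) := rfl
    rw [h7, ← h4, setIntegral_prod _ h6]
    simp only [Prod.swap_prod_mk, one_mul]
    have h8 : ∀ θ : ℝ, ∫ r in Ioi (0 : ℝ), fderiv ℝ f (z + r * ee θ) (ee θ) = - f z :=
      fun θ => integral_radial hf hc z θ
    simp only [h8]
    rw [setIntegral_const]
    rw [Measure.real, Real.volume_Ioo, ENNReal.toReal_ofReal (by linarith [Real.pi_pos]),
      Complex.real_smul]
    push_cast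
    ring
  have h4 : ∫ p in Ioi (0 : ℝ) ×ˢ Ioo (-Real.pi) Real.pi,
      fderiv ℝ f (z + p.1 * ee p.2) (Complex.I * ee p.2) = 0 := by
    have h7 : ∫ p in Ioi (0 : ℝ) ×ˢ Ioo (-Real.pi) Real.pi,
      fderiv ℝ f (z + p.1 * ee p.2) (Complex.I * ee p.2) =
      ∫ p in Ioi (0 : ℝ) ×ˢ Ioo (-Real.pi) Real.pi,
      fderiv ℝ f (z + p.1 * ee p.2) (Complex.I * ee p.2) ∂((volume : Measure ℝ).prod volume) := rfl
    rw [h7, setIntegral_prod _ (integrableOn_dir hf hc z Complex.I)]
    rw [setIntegral_congr_fun (g := fun _ => (0 : ℂ)) measurableSet_Ioi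
      (fun r hr => integral_angular hf z hr)]
    simp
  rw [h3, h4]
  have hpi : (Real.pi : ℂ) ≠ 0 := by exact_mod_cast Real.pi_ne_zero
  field_simp
  ring

end Pool.Agent.Helper43.Oval
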