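import Pool.Agent.Helper32.Oval.Defs
import Pool.Agent.Helper43.Oval.Local

/-!
# Plane topology near a smooth oval
-/

open Filter Topology Set
open Pool.Agent.Helper32.Oval

namespace Pool.Agent.Helper43.Oval

/-- `Γ` is locally the zero set of `P`, and both sides of it are locally connected. -/
structure LocalSides (P : ℂ → ℝ) (Γ : Set ℂ) : Prop where
  zero : ∀ g ∈ Γ, P g = 0
  closed : IsClosed Γ
  conn : IsPreconnected Γ
  nonempty : Γ.Nonempty
  loc : ∀ g ∈ Γ, ∃ D : Set ℂ, IsOpen D ∧ g ∈ D ∧ IsPreconnected (D ∩ {z | 0 < P z}) ∧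
    IsPreconnected (D ∩ {z | P z < 0}) ∧ (∀ x ∈ D, P x = 0 → x ∈ Γ) ∧
    ∀ x ∈ D, P x = 0 → x ∈ closure (D ∩ {z | 0 < P z}) ∧ x ∈ closure (D ∩ {z | P z < 0})

theorem localSides_of_component {P : ℂ → ℝ} (hP : ContDiff ℝ 1 P) {Γ : Set ℂ} (hΓ : IsClosed Γ)
    (hcomp : ∃ x ∈ {z | P z = 0}, Γ = connectedComponentIn {z | P z = 0} x)
    (hd : ∀ g ∈ Γ, fderiv ℝ P g ≠ 0) : LocalSides P Γ := by
  obtain ⟨x, hx, rfl⟩ := hcomp
  have hzero : ∀ g ∈ connectedComponentIn {z | P z = 0} x, P g = 0 := by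
    intro g hg
    have : g ∈ {z | P z = 0} := connectedComponentIn_subset {z | P z = 0} x hg
    exact this
  refine ⟨hzero, hΓ, isPreconnected_connectedComponentIn, ⟨x, mem_connectedComponentIn hx⟩, ?_⟩
  intro g hg
  obtain ⟨D, -, hDo, hgD, hp, hn, hz, hcl⟩ :=
    local_structure hP (hzero g hg) (hd g hg) (N := univ) univ_mem
  refine ⟨D, hDo, hgD, hp, hn, ?_, hcl⟩
  intro y hy hy0
  have h1 : D ∩ {z | P z = 0} ⊆ connectedComponentIn {z | P z = 0} g :=
    hz.subset_connectedComponentIn ⟨hgD, hzero g hg⟩ inter_subset_right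
  rw [connectedComponentIn_eq hg]
  exact h1 ⟨hy, hy0⟩

namespace LocalSides

variable {P : ℂ → ℝ} {Γ : Set ℂ}

theorem neg (h : LocalSides P Γ) : LocalSides (fun z => - P z) Γ := by
  refine ⟨fun g hg => by simp [h.zero g hg], h.closed, h.conn, h.nonempty, ?_⟩
  intro g hg
  obtain ⟨D, hDo, hgD, hp, hn, hz, hcl⟩ := h.loc g hg
  refine ⟨D, hDo, hgD, ?_, ?_, ?_, ?_⟩
  · simpa using hn
  · simpa using hp
  · intro x hx hx0
    exact hz x hx (by simpa using hx0)
  · intro x hx hx0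
    have := hcl x hx (by simpa using hx0)
    refine ⟨by simpa using this.2, by simpa using this.1⟩

theorem isOpen_comp (h : LocalSides P Γ) (x : ℂ) : IsOpen (connectedComponentIn Γᶜ x) :=
  h.closed.isOpen_compl.connectedComponentIn

theorem closure_comp_subset (h : LocalSides P Γ) (x : ℂ) :
    closure (connectedComponentIn Γᶜ x) ⊆ connectedComponentIn Γᶜ x ∪ Γ := by
  intro y hy
  by_cases hyΓ : y ∈ Γ
  · exact Or.inr hyΓ
  · left
    have hy1 : y ∈ connectedComponentIn Γᶜ y := mem_connectedComponentIn hyΓ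
    obtain ⟨z, hz1, hz2⟩ := mem_closure_iff.mp hy _ (h.isOpen_comp y) hy1
    rw [connectedComponentIn_eq hz2, ← connectedComponentIn_eq hz1]
    exact hy1

/-- a preconnected subset of the complement of `Γ` which meets a component lies in it -/
theorem subset_comp {D : Set ℂ} (hD : IsPreconnected D) (hDΓ : D ⊆ Γᶜ) {x z : ℂ} (hz : z ∈ D)
    (hzx : z ∈ connectedComponentIn Γᶜ x) : D ⊆ connectedComponentIn Γᶜ x := by
  rw [connectedComponentIn_eq hzx]
  exact hD.subset_connectedComponentIn hz hDΓ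

/-- If `D` is a nice neighbourhood, the component meets `D` and `D` meets `Γ` in `x`, then `x`
is in the closure of the component. -/
theorem subset_closure_comp (h : LocalSides P Γ) {x : ℂ} (hx : x ∉ Γ) :
    Γ ⊆ closure (connectedComponentIn Γᶜ x) := by
  set C := connectedComponentIn Γᶜ x with hC
  have hCΓ : C ⊆ Γᶜ := connectedComponentIn_subset _ _
  -- the local statement
  have hloc : ∀ g ∈ Γ, g ∈ closure C → ∃ D : Set ℂ, IsOpen D ∧ g ∈ D ∧ D ∩ Γ ⊆ closure C := by
    intro g hg hgC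
    obtain ⟨D, hDo, hgD, hp, hn, hz, hcl⟩ := h.loc g hg
    refine ⟨D, hDo, hgD, ?_⟩
    obtain ⟨z, hzD, hzC⟩ := mem_closure_iff.mp hgC D hDo hgD
    have hzΓ : z ∉ Γ := hCΓ hzC
    have hPz : P z ≠ 0 := fun h0 => hzΓ (hz z hzD h0)
    rcases lt_or_gt_of_ne hPz with hlt | hgt
    · have h1 : D ∩ {z | P z < 0} ⊆ C := by
        refine subset_comp hn ?_ ⟨hzD, hlt⟩ hzC
        rintro y ⟨-, hy⟩ hyΓ
        rw [Set.mem_ofPred_eq, h.zero y hyΓ] at hy
        exact lt_irrefl _ hy
      intro y hy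
      exact closure_mono h1 (hcl y hy.1 (h.zero y hy.2)).2
    · have h1 : D ∩ {z | 0 < P z} ⊆ C := by
        refine subset_comp hp ?_ ⟨hzD, hgt⟩ hzC
        rintro y ⟨-, hy⟩ hyΓ
        rw [Set.mem_ofPred_eq, h.zero y hyΓ] at hy
        exact lt_irrefl _ hy
      intro y hy
      exact closure_mono h1 (hcl y hy.1 (h.zero y hy.2)).1
  choose! D hDo hgD hDC using hloc
  set u : Set ℂ := ⋃ g ∈ Γ ∩ closure C, D g with hu
  have huo : IsOpen u := isOpen_biUnion fun g hg => hDo g hg.1 hg.2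
  have hvo : IsOpen (closure C)ᶜ := isClosed_closure.isOpen_compl
  have hcov : Γ ⊆ u ∪ (closure C)ᶜ := by
    intro g hg
    by_cases hgC : g ∈ closure C
    · left
      exact mem_biUnion (show g ∈ Γ ∩ closure C from ⟨hg, hgC⟩) (hgD g hg hgC)
    · right
      exact hgC
  have hdisj : Γ ∩ (u ∩ (closure C)ᶜ) = ∅ := by
    rw [eq_empty_iff_forall_notMem]
    rintro y ⟨hyΓ, hyu, hyC⟩
    rw [hu, mem_iUnion₂] at hyu
    obtain ⟨g, hg, hyg⟩ := hyu
    exact hyC (hDC g hg.1 hg.2 ⟨hyg, hyΓ⟩)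
  rcases isPreconnected_iff_subset_of_disjoint.mp h.conn u _ huo hvo hcov hdisj with h1 | h1
  · intro g hg
    have := h1 hg
    rw [hu, mem_iUnion₂] at this
    obtain ⟨g', hg', hgg⟩ := this
    exact hDC g' hg'.1 hg'.2 ⟨hgg, hg⟩
  · exfalso
    have hcl : IsClosed C := by
      refine isClosed_of_closure_subset ?_
      intro y hy
      rcases h.closure_comp_subset x hy with h2 | h2
      · exact h2
      · exact absurd hy (h1 h2)
    have hclopen : IsClopen C := ⟨hcl, h.isOpen_comp x⟩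
    have huniv : C = univ := hclopen.eq_univ ⟨x, mem_connectedComponentIn hx⟩
    obtain ⟨g, hg⟩ := h.nonempty
    have : g ∈ C := by rw [huniv]; trivial
    exact hCΓ this hg

/-- dichotomy on the positive side -/
theorem pos_dichotomy (h : LocalSides P Γ) (x : ℂ) :
    (∀ g ∈ Γ, ∀ᶠ z in 𝓝 g, 0 < P z → z ∈ connectedComponentIn Γᶜ x) ∨
      (∀ g ∈ Γ, ∀ᶠ z in 𝓝 g, 0 < P z → z ∉ connectedComponentIn Γᶜ x) := by
  set C := connectedComponentIn Γᶜ x with hC
  set u : Set ℂ := {g | ∀ᶠ z in 𝓝 g, 0 < P z → z ∈ C} with hu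
  set v : Set ℂ := {g | ∀ᶠ z in 𝓝 g, 0 < P z → z ∉ C} with hv
  have huo : IsOpen u := isOpen_setOfPred_eventually_nhds
  have hvo : IsOpen v := isOpen_setOfPred_eventually_nhds
  have hcov : Γ ⊆ u ∪ v := by
    intro g hg
    obtain ⟨D, hDo, hgD, hp, hn, hz, hcl⟩ := h.loc g hg
    by_cases hne : (D ∩ {z | 0 < P z} ∩ C).Nonempty
    · left
      obtain ⟨z, hz1, hz2⟩ := hne
      have h1 : D ∩ {z | 0 < P z} ⊆ C := by
        refine subset_comp hp ?_ hz1 hz2
        rintro y ⟨-, hy⟩ hyΓ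
        rw [Set.mem_ofPred_eq, h.zero y hyΓ] at hy
        exact lt_irrefl _ hy
      filter_upwards [hDo.mem_nhds hgD] with y hy hy1
      exact h1 ⟨hy, hy1⟩
    · right
      filter_upwards [hDo.mem_nhds hgD] with y hy hy1 hy2
      exact hne ⟨y, ⟨hy, hy1⟩, hy2⟩
  have hdisj : Γ ∩ (u ∩ v) = ∅ := by
    rw [eq_empty_iff_forall_notMem]
    rintro g ⟨hg, hgu, hgv⟩
    obtain ⟨D, hDo, hgD, hp, hn, hz, hcl⟩ := h.loc g hg
    have h1 := (hcl g hgD (h.zero g hg)).1
    have h2 : ∀ᶠ z in 𝓝 g, ¬ 0 < P z := by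
      filter_upwards [hgu, hgv] with z h3 h4 h5 using h4 h5 (h3 h5)
    rw [mem_closure_iff_frequently] at h1
    obtain ⟨z, hz1, hz2⟩ := (h1.and_eventually h2).exists
    exact hz2 hz1.2
  rcases isPreconnected_iff_subset_of_disjoint.mp h.conn u v huo hvo hcov hdisj with h1 | h1
  · exact Or.inl h1
  · exact Or.inr h1

/-- The conclusion about the two sides: for a bounded component `Ω` of the complement of `Γ` the
sign can be chosen so that `Ω` is locally `σ P < 0`. -/
theorem exists_sign (h : LocalSides P Γ) {Ω : Set ℂ} (hΩ : IsBoundedComponent Γ Ω) :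
    ∃ σ : ℝ, (σ = 1 ∨ σ = -1) ∧ ∀ g ∈ Γ, ∀ᶠ z in 𝓝 g,
      (σ * P z < 0 → z ∈ Ω) ∧ (0 < σ * P z → z ∉ Ω) ∧ (P z = 0 → z ∈ Γ) := by
  obtain ⟨hbd, x, hx, rfl⟩ := hΩ
  set C := connectedComponentIn Γᶜ x with hC
  have hCΓ : C ⊆ Γᶜ := connectedComponentIn_subset _ _
  have hsub : Γ ⊆ closure C := h.subset_closure_comp hx
  have hz : ∀ g ∈ Γ, ∀ᶠ z in 𝓝 g, P z = 0 → z ∈ Γ := by
    intro g hg
    obtain ⟨D, hDo, hgD, hp, hn, hz, hcl⟩ := h.loc g hg
    filter_upwards [hDo.mem_nhds hgD] with y hy hy1 using hz y hy hy1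
  rcases h.pos_dichotomy x with hp | hp <;> rcases h.neg.pos_dichotomy x with hn | hn
  · exfalso
    have hcleq : closure C = C ∪ Γ :=
      Subset.antisymm (h.closure_comp_subset x) (union_subset subset_closure hsub)
    have hopen : IsOpen (closure C) := by
      rw [isOpen_iff_mem_nhds]
      intro g hg
      rw [hcleq] at hg ⊢
      rcases hg with hg | hg
      · exact mem_of_superset ((h.isOpen_comp x).mem_nhds hg) subset_union_left
      · filter_upwards [hp g hg, hn g hg, hz g hg] with z h1 h2 h3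
        rcases lt_trichotomy (P z) 0 with h4 | h4 | h4
        · exact Or.inl (h2 (by linarith))
        · exact Or.inr (h3 h4)
        · exact Or.inl (h1 h4)
    have huniv : closure C = univ :=
      IsClopen.eq_univ ⟨isClosed_closure, hopen⟩ ⟨x, subset_closure (mem_connectedComponentIn hx)⟩
    have hcpt : IsCompact (closure C) := hbd.isCompact_closure
    rw [huniv] at hcpt
    exact noncompact_univ ℂ hcpt
  · refine ⟨-1, Or.inr rfl, fun g hg => ?_⟩
    filter_upwards [hp g hg, hn g hg, hz g hg] with z h1 h2 h3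
    refine ⟨fun h4 => h1 (by linarith), fun h4 => h2 (by linarith), h3⟩
  · refine ⟨1, Or.inl rfl, fun g hg => ?_⟩
    filter_upwards [hp g hg, hn g hg, hz g hg] with z h1 h2 h3
    refine ⟨fun h4 => h2 (by linarith), fun h4 => h1 (by linarith), h3⟩
  · exfalso
    obtain ⟨g, hg⟩ := h.nonempty
    have h1 := hsub hg
    rw [mem_closure_iff_frequently] at h1
    obtain ⟨z, hz1, h2, h3, h4⟩ :=
      (h1.and_eventually ((hp g hg).and ((hn g hg).and (hz g hg)))).exists
    rcases lt_trichotomy (P z) 0 with h5 | h5 | h5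
    · exact h3 (by linarith) hz1
    · exact hCΓ hz1 (h4 h5)
    · exact h2 h5 hz1

theorem closure_eq (h : LocalSides P Γ) {Ω : Set ℂ} (hΩ : IsBoundedComponent Γ Ω) :
    closure Ω = Ω ∪ Γ := by
  obtain ⟨hbd, x, hx, rfl⟩ := hΩ
  exact Subset.antisymm (h.closure_comp_subset x)
    (union_subset subset_closure (h.subset_closure_comp hx))

theorem exterior (h : LocalSides P Γ) {Ω : Set ℂ} (hΩ : IsBoundedComponent Γ Ω) :
    IsPreconnected (closure Ω)ᶜ ∧ ∀ g ∈ Γ, g ∈ closure (closure Ω)ᶜ := by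
  have hcl := h.closure_eq hΩ
  obtain ⟨σ, hσ, hsign⟩ := h.exists_sign hΩ
  obtain ⟨hbd, x, hx, rfl⟩ := hΩ
  set C := connectedComponentIn Γᶜ x with hC
  have hCΓ : C ⊆ Γᶜ := connectedComponentIn_subset _ _
  -- the outer side at every point
  have hside : ∀ g ∈ Γ, ∃ D : Set ℂ, IsOpen D ∧ g ∈ D ∧ IsPreconnected (D ∩ {z | 0 < σ * P z}) ∧
      g ∈ closure (D ∩ {z | 0 < σ * P z}) := by
    intro g hg
    rcases hσ with rfl | rfl
    · obtain ⟨D, hDo, hgD, hp, hn, hz, hcl⟩ := h.loc g hg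
      refine ⟨D, hDo, hgD, by simpa using hp, by simpa using (hcl g hgD (h.zero g hg)).1⟩
    · obtain ⟨D, hDo, hgD, hp, hn, hz, hcl⟩ := h.loc g hg
      refine ⟨D, hDo, hgD, by simpa using hn, by simpa using (hcl g hgD (h.zero g hg)).2⟩
  have houter : ∀ g ∈ Γ, g ∈ closure (closure C)ᶜ := by
    intro g hg
    obtain ⟨D, hDo, hgD, hp, hgc⟩ := hside g hg
    rw [mem_closure_iff_frequently] at hgc ⊢
    refine (hgc.and_eventually (hsign g hg)).mono ?_
    rintro z ⟨hz1, -, hz2, -⟩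
    rw [hcl]
    rintro (hz3 | hz3)
    · exact hz2 hz1.2 hz3
    · have h0 := hz1.2
      rw [Set.mem_ofPred_eq, h.zero z hz3] at h0
      simp at h0
  refine ⟨?_, houter⟩
  obtain ⟨g, hg⟩ := h.nonempty
  obtain ⟨D, hDo, hgD, hp, hgc⟩ := hside g hg
  obtain ⟨q, hq1, hq2, hq3, hq4⟩ : ∃ q, q ∈ D ∩ {z | 0 < σ * P z} ∧
      ((σ * P q < 0 → q ∈ C) ∧ (0 < σ * P q → q ∉ C) ∧ (P q = 0 → q ∈ Γ)) := by
    rw [mem_closure_iff_frequently] at hgc
    exact (hgc.and_eventually (hsign g hg)).exists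
  have hqC : q ∉ C := hq3 hq1.2
  have hqΓ : q ∉ Γ := by
    intro hqΓ
    have h0 := hq1.2
    rw [Set.mem_ofPred_eq, h.zero q hqΓ] at h0
    simp at h0
  have hDΓ : D ∩ {z | 0 < σ * P z} ⊆ Γᶜ := by
    rintro y ⟨-, hy⟩ hyΓ
    rw [Set.mem_ofPred_eq, h.zero y hyΓ] at hy
    simp at hy
  have hE : (closure C)ᶜ = connectedComponentIn Γᶜ q := by
    rw [hcl]
    apply Subset.antisymm
    · intro y hy
      rw [mem_compl_iff, mem_union, not_or] at hy
      have hyy : y ∈ connectedComponentIn Γᶜ y := mem_connectedComponentIn hy.2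
      have hgy : g ∈ closure (connectedComponentIn Γᶜ y) := h.subset_closure_comp hy.2 hg
      rw [mem_closure_iff_frequently] at hgy
      obtain ⟨z, hz1, ⟨hz2, hz3, hz4⟩, hz5⟩ :=
        (hgy.and_eventually ((hsign g hg).and (hDo.mem_nhds hgD))).exists
      have hzC : z ∉ C := by
        intro hzC
        apply hy.1
        have e1 : C = connectedComponentIn Γᶜ z := connectedComponentIn_eq hzC
        have e2 : connectedComponentIn Γᶜ y = connectedComponentIn Γᶜ z :=
          connectedComponentIn_eq hz1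
        rw [e1, ← e2]
        exact hyy
      have hzΓ : z ∉ Γ := connectedComponentIn_subset _ _ hz1
      have hzpos : 0 < σ * P z := by
        rcases lt_trichotomy (σ * P z) 0 with h6 | h6 | h6
        · exact absurd (hz2 h6) hzC
        · have : P z = 0 := by
            rcases hσ with rfl | rfl <;> linarith
          exact absurd (hz4 this) hzΓ
        · exact h6
      have h7 : D ∩ {z | 0 < σ * P z} ⊆ connectedComponentIn Γᶜ y :=
        subset_comp hp hDΓ ⟨hz5, hzpos⟩ hz1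
      have h8 : q ∈ connectedComponentIn Γᶜ y := h7 hq1
      rw [← connectedComponentIn_eq h8]
      exact hyy
    · intro y hy
      rw [mem_compl_iff, mem_union, not_or]
      refine ⟨?_, fun hyΓ => connectedComponentIn_subset _ _ hy hyΓ⟩
      intro hyC
      apply hqC
      have e1 : C = connectedComponentIn Γᶜ y := connectedComponentIn_eq hyC
      have e2 : connectedComponentIn Γᶜ q = connectedComponentIn Γᶜ y :=
        connectedComponentIn_eq hy
      rw [e1, ← e2]
      exact mem_connectedComponentIn hqΓ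
  rw [hE]
  exact isPreconnected_connectedComponentIn

end LocalSides

end Pool.Agent.Helper43.Oval
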