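import Pool.Agent.Helper43.Oval.Poly
import Pool.Agent.Helper43.Oval.Topo

/-!
# The Schwarz function of a smooth oval
-/

open Polynomial Filter Topology Set ComplexConjugate
open Pool.Agent.Helper32.Oval

namespace Pool.Agent.Helper43.Oval

theorem schwarz_local {p : Polynomial (Polynomial ℂ)} {P : ℂ → ℝ}
    (hP : ∀ z, p.evalEval z (conj z) = (P z : ℂ)) {g : ℂ} (hg : P g = 0)
    (hd : p.derivative.evalEval g (conj g) ≠ 0) :
    ∃ r > 0, ∃ φ : ℂ → ℂ, AnalyticOnNhd ℂ φ (Metric.ball g r) ∧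
      (∀ z ∈ Metric.ball g r, p.evalEval z (φ z) = 0) ∧
      ∀ z ∈ Metric.ball g r, P z = 0 → φ z = conj z := by
  set f : ℂ × ℂ → ℂ := fun v => p.evalEval v.1 v.2 with hf
  have cdf : ContDiffAt ℂ ⊤ f (g, conj g) := (contDiff_evalEval p).contDiffAt
  have hinv : (fderiv ℂ f (g, conj g) ∘L .inr ℂ ℂ ℂ).IsInvertible := by
    refine ⟨ContinuousLinearEquiv.unitsEquivAut ℂ (Units.mk0 _ hd), ?_⟩
    ext
    simp only [ContinuousLinearMap.comp_apply, ContinuousLinearMap.inr_apply]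
    rw [fderiv_evalEval_snd]
    simp
  have hf0 : f (g, conj g) = 0 := by
    rw [hf]
    simp only
    rw [hP, hg, Complex.ofReal_zero]
  set φ := cdf.implicitFunction (by simp) hinv with hφ
  have h1 : ∀ᶠ z in 𝓝 g, f (z, φ z) = 0 := by
    have := cdf.eventually_apply_implicitFunction (by simp) hinv
    rw [hf0] at this
    exact this
  have h2 : ∀ᶠ z in 𝓝 g, P z = 0 → φ z = conj z := by
    have h3 := cdf.eventually_apply_eq_iff_implicitFunction (by simp) hinv
    have hcont : Tendsto (fun z : ℂ => (z, conj z)) (𝓝 g) (𝓝 (g, conj g)) :=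
      Continuous.tendsto (continuous_id.prodMk Complex.continuous_conj) g
    filter_upwards [hcont.eventually h3] with z hz hPz
    have h4 : f (z, conj z) = f (g, conj g) := by
      rw [hf0, hf]
      simp only
      rw [hP, hPz, Complex.ofReal_zero]
    exact hz.mp h4
  have h3 : ∀ᶠ z in 𝓝 g, AnalyticAt ℂ φ z :=
    (cdf.contDiffAt_implicitFunction (by simp) hinv).analyticAt.eventually_analyticAt
  obtain ⟨r, hr, hall⟩ := Metric.eventually_nhds_iff_ball.mp (h1.and (h2.and h3))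
  exact ⟨r, hr, φ, fun z hz => (hall z hz).2.2, fun z hz => (hall z hz).1,
    fun z hz => (hall z hz).2.1⟩

/-- The Schwarz function exists on a neighbourhood of `Γ`. -/
theorem exists_schwarz {p : Polynomial (Polynomial ℂ)} {P : ℂ → ℝ}
    (hP : ∀ z, p.evalEval z (conj z) = (P z : ℂ)) {Γ : Set ℂ}
    (hzero : ∀ g ∈ Γ, P g = 0)
    (hfreq : ∀ g ∈ Γ, ∃ᶠ z in 𝓝[≠] g, P z = 0)
    (hd : ∀ g ∈ Γ, p.derivative.evalEval g (conj g) ≠ 0) :
    ∃ (V : Set ℂ) (S : ℂ → ℂ), IsOpen V ∧ Γ ⊆ V ∧ AnalyticOnNhd ℂ S V ∧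
      (∀ z ∈ V, p.evalEval z (S z) = 0) ∧ ∀ z ∈ Γ, S z = conj z := by
  have hloc := fun (g : ℂ) (hg : g ∈ Γ) => schwarz_local hP (hzero g hg) (hd g hg)
  choose! R hR φ hφa hφp hφc using hloc
  set ρ : ℂ → ℝ := fun g => R g / 3 with hρ
  have hρpos : ∀ g ∈ Γ, 0 < ρ g := fun g hg => by
    have := hR g hg
    rw [hρ]
    positivity
  have key : ∀ g ∈ Γ, ∀ g' ∈ Γ, ρ g' ≤ ρ g → ∀ z, z ∈ Metric.ball g (ρ g) →
      z ∈ Metric.ball g' (ρ g') → φ g z = φ g' z := by
    intro g hg g' hg' hle z hz hz'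
    have hsub : Metric.ball g' (ρ g') ⊆ Metric.ball g (R g) := by
      intro y hy
      rw [Metric.mem_ball] at *
      have h1 : dist y g ≤ dist y g' + dist z g' + dist z g := by
        have := dist_triangle4 y g' z g
        rwa [dist_comm g' z] at this
      have h2 : R g = 3 * ρ g := by rw [hρ]; ring
      linarith
    have hsub' : Metric.ball g' (ρ g') ⊆ Metric.ball g' (R g') := by
      refine Metric.ball_subset_ball ?_
      have := hR g' hg'
      rw [hρ]
      simp only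
      linarith
    have heq : EqOn (φ g) (φ g') (Metric.ball g' (ρ g')) := by
      refine AnalyticOnNhd.eqOn_of_preconnected_of_frequently_eq
        (fun y hy => hφa g hg y (hsub hy)) (fun y hy => hφa g' hg' y (hsub' hy))
        (convex_ball _ _).isPreconnected (Metric.mem_ball_self (hρpos g' hg')) ?_
      refine ((hfreq g' hg').and_eventually
        (nhdsWithin_le_nhds (Metric.ball_mem_nhds g' (hρpos g' hg')))).mono ?_
      rintro y ⟨hy1, hy2⟩
      rw [hφc g hg y (hsub hy2) hy1, hφc g' hg' y (hsub' hy2) hy1]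
    exact heq hz'
  have key2 : ∀ g ∈ Γ, ∀ g' ∈ Γ, ∀ z, z ∈ Metric.ball g (ρ g) →
      z ∈ Metric.ball g' (ρ g') → φ g z = φ g' z := by
    intro g hg g' hg' z hz hz'
    rcases le_total (ρ g') (ρ g) with h | h
    · exact key g hg g' hg' h z hz hz'
    · exact (key g' hg' g hg h z hz' hz).symm
  classical
  set S : ℂ → ℂ := fun z => if h : ∃ g, g ∈ Γ ∧ z ∈ Metric.ball g (ρ g) then φ h.choose z else 0
    with hS
  have hSeq : ∀ g ∈ Γ, ∀ z ∈ Metric.ball g (ρ g), S z = φ g z := by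
    intro g hg z hz
    have h : ∃ g, g ∈ Γ ∧ z ∈ Metric.ball g (ρ g) := ⟨g, hg, hz⟩
    rw [hS]
    simp only
    rw [dif_pos h]
    exact key2 _ h.choose_spec.1 g hg z h.choose_spec.2 hz
  have hRρ : ∀ g ∈ Γ, Metric.ball g (ρ g) ⊆ Metric.ball g (R g) := by
    intro g hg
    refine Metric.ball_subset_ball ?_
    have := hR g hg
    rw [hρ]
    simp only
    linarith
  refine ⟨⋃ g ∈ Γ, Metric.ball g (ρ g), S, isOpen_biUnion fun g _ => Metric.isOpen_ball, ?_, ?_,
    ?_, ?_⟩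
  · intro g hg
    exact mem_biUnion hg (Metric.mem_ball_self (hρpos g hg))
  · intro z hz
    obtain ⟨g, hg, hzg⟩ := mem_iUnion₂.mp hz
    have h1 : S =ᶠ[𝓝 z] φ g := by
      filter_upwards [Metric.isOpen_ball.mem_nhds hzg] with y hy using hSeq g hg y hy
    exact (hφa g hg z (hRρ g hg hzg)).congr h1.symm
  · intro z hz
    obtain ⟨g, hg, hzg⟩ := mem_iUnion₂.mp hz
    rw [hSeq g hg z hzg]
    exact hφp g hg z (hRρ g hg hzg)
  · intro g hg
    rw [hSeq g hg g (Metric.mem_ball_self (hρpos g hg))]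
    exact hφc g hg g (hRρ g hg (Metric.mem_ball_self (hρpos g hg))) (hzero g hg)

end Pool.Agent.Helper43.Oval
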